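import Pool.Agent.Helper92.Ru.DefsS

/-! Goals for the geometry of numbers over `S`-integers -/

set_option autoImplicit false

open NumberField

namespace Pool.Agent.Helper92.Ru

/-- S1: pigeonhole principle over `O_k` with congruence conditions. -/
def M1int : Prop :=
  ∀ (k : Type) [Field k] [NumberField k] (T : Finset (FinitePlace k)) (ι : Type) [Fintype ι]
    [DecidableEq ι] [Nonempty ι] (A : InfinitePlace k → Matrix ι ι k),
    ∃ C : ℝ, 0 < C ∧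
      ∀ (B : {w : FinitePlace k // w ∈ T} → Matrix ι ι (𝓞 k))
        (a : {w : FinitePlace k // w ∈ T} → ι → ℕ) (w : InfinitePlace k → ι → ℝ),
        (∀ v i, 0 < w v i) →
        C * ∏ u, ∏ i, (qw u.1 : ℝ) ^ a u i ≤ ∏ v, ∏ i, w v i →
        ∃ x : ι → 𝓞 k, x ≠ 0 ∧
          (∀ v i, v ((A v).mulVec (fun j => (x j : k)) i) ^ v.mult ≤ w v i) ∧
          ∀ u i, (B u).mulVec x i ∈ u.1.maximalIdeal.asIdeal ^ a u i

/-- S2: Minkowski's first theorem for `O_S^ι`. -/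
def M1 : Prop :=
  ∀ (k : Type) [Field k] [NumberField k] (T : Finset (FinitePlace k)) (ι : Type) [Fintype ι]
    [DecidableEq ι] [Nonempty ι] (A : SP k T → Matrix ι ι k),
    ∃ C : ℝ, 0 < C ∧ ∀ w : SP k T → ι → ℝ, (∀ v i, 0 < w v i) → C ≤ ∏ v, ∏ i, w v i →
      ∃ x : ι → k, x ≠ 0 ∧ InBox A w x

/-- S3: scaling by an element with prescribed absolute values (fractional ideals). -/
def Bal : Prop :=
  ∀ (k : Type) [Field k] [NumberField k] (T : Finset (FinitePlace k)),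
    ∃ C : ℝ, 0 < C ∧ ∀ (z : FinitePlace k → ℤ), z.support.Finite → (∀ w ∈ T, z w = 0) →
      ∀ y : SP k T → ℝ, (∀ v, 0 < y v) →
        C ≤ (∏ v, y v) * ∏ᶠ w : FinitePlace k, (qw w : ℝ) ^ z w →
        ∃ α : k, α ≠ 0 ∧ (∀ v, nS v α ≤ y v) ∧ ∀ w, w ∉ T → w α ≤ (qw w : ℝ) ^ z w

/-- S3': scaling by an `S`-integer. -/
def Bal1 : Prop :=
  ∀ (k : Type) [Field k] [NumberField k] (T : Finset (FinitePlace k)),
    ∃ C : ℝ, 0 < C ∧ ∀ y : SP k T → ℝ, (∀ v, 0 < y v) → C ≤ ∏ v, y v →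
        ∃ α : k, α ≠ 0 ∧ SInt T α ∧ ∀ v, nS v α ≤ y v

/-- S4: determinant lower bound. -/
def DetLB : Prop :=
  ∀ (k : Type) [Field k] [NumberField k] (T : Finset (FinitePlace k)) (ι : Type) [Fintype ι]
    [DecidableEq ι] [Nonempty ι] (A : SP k T → Matrix ι ι k), (∀ v, (A v).det ≠ 0) →
    ∃ C : ℝ, 0 < C ∧ ∀ w : SP k T → ι → ℝ, (∀ v i, 0 < w v i) →
      ∀ (κ : Type) [Fintype κ], Fintype.card κ = Fintype.card ι →
      ∀ x : κ → ι → k, LinearIndependent k x → (∀ j, SIntV T (x j)) →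
        1 ≤ C * (∏ v, ∏ i, w v i) * ∏ j, HH A w (x j)

/-- S5: lower bound for `HH` on nonzero `S`-integral points. -/
def HHLB : Prop :=
  ∀ (k : Type) [Field k] [NumberField k] (T : Finset (FinitePlace k)) (ι : Type) [Fintype ι]
    [DecidableEq ι] [Nonempty ι] (A : SP k T → Matrix ι ι k), (∀ v, (A v).det ≠ 0) →
    ∃ c : ℝ, 0 < c ∧ ∀ w : SP k T → ι → ℝ, (∀ v i, 0 < w v i) →
      ∀ x : ι → k, SIntV T x → x ≠ 0 → c ≤ HH A w x * ∏ v, ⨆ i, w v i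

/-- S6: existence of greedy minima. -/
def GreedyEx : Prop :=
  ∀ (k : Type) [Field k] [NumberField k] (T : Finset (FinitePlace k)) (ι : Type) [Fintype ι]
    [DecidableEq ι] [Nonempty ι] (A : SP k T → Matrix ι ι k), (∀ v, (A v).det ≠ 0) →
    ∀ w : SP k T → ι → ℝ, (∀ v i, 0 < w v i) →
      ∃ x : Fin (Fintype.card ι) → ι → k, Greedy A w x

/-- S7: Davenport's permutation. -/
def Dav : Prop :=
  ∀ N : ℕ, ∃ C : ℝ, 1 ≤ C ∧ ∀ (k : Type) [Field k] [NumberField k] (v : InfinitePlace k)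
    (ι : Type) [Fintype ι] [DecidableEq ι], Fintype.card ι = N →
    ∀ w : ι → ℝ, (∀ i, 0 < w i) → ∀ z : Fin N → ι → k, LinearIndependent k z →
      ∃ π : Fin N ≃ ι, ∀ j : Fin N, ∀ y ∈ Submodule.span k (z '' {j' | j' ≤ j}), ∀ i,
        ∃ j' : Fin N, j' ≤ j ∧ v (y i) / w i ≤ C * (v (y (π j')) / w (π j'))

/-- S8: twisted weights: change the weights at one infinite place `v0`. -/
def Twist : Prop :=
  ∀ (k : Type) [Field k] [NumberField k] (T : Finset (FinitePlace k)) (ι : Type) [Fintype ι]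
    [DecidableEq ι] [Nonempty ι] (A : SP k T → Matrix ι ι k), (∀ v, (A v).det ≠ 0) →
    ∀ v0 : InfinitePlace k, ∃ c : ℝ, 0 < c ∧ c ≤ 1 ∧ ∀ w : SP k T → ι → ℝ, (∀ v i, 0 < w v i) →
      ∀ x : Fin (Fintype.card ι) → ι → k, LinearIndependent k x →
      ∃ π : Fin (Fintype.card ι) ≃ ι, ∀ ρ : Fin (Fintype.card ι) → ℝ, (∀ j, 0 < ρ j) →
        Antitone ρ → ∀ w' : SP k T → ι → ℝ,
        (∀ v i, v ≠ Sum.inl v0 → w' v i = w v i) →
        (∀ j, w' (Sum.inl v0) (π j) = w (Sum.inl v0) (π j) / ρ j) →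
        ∀ j, ∀ y ∈ Submodule.span k (x '' {j' | j' ≤ j}), c * ρ j * HH A w y ≤ HH A w' y

/-- S9: Minkowski's second theorem. -/
def M2 : Prop :=
  ∀ (k : Type) [Field k] [NumberField k] (T : Finset (FinitePlace k)) (ι : Type) [Fintype ι]
    [DecidableEq ι] [Nonempty ι] (A : SP k T → Matrix ι ι k), (∀ v, (A v).det ≠ 0) →
    ∃ C : ℝ, 0 < C ∧ ∀ w : SP k T → ι → ℝ, (∀ v i, 0 < w v i) →
      ∀ x : Fin (Fintype.card ι) → ι → k, Greedy A w x →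
        (∏ v, ∏ i, w v i) * ∏ j, HH A w (x j) ≤ C

/-- S10: flattening the minima of a hyperplane with a gap. -/
def Flat : Prop :=
  ∀ (k : Type) [Field k] [NumberField k] (T : Finset (FinitePlace k)) (ι : Type) [Fintype ι]
    [DecidableEq ι] [Nonempty ι] (A : SP k T → Matrix ι ι k), (∀ v, (A v).det ≠ 0) →
    2 ≤ Fintype.card ι →
    ∃ (C : ℝ) (a : ℕ), 1 ≤ C ∧ ∀ (w : SP k T → ι → ℝ) (K R G : ℝ), 1 ≤ K → 0 < R → C ≤ G →
      (∀ v i, 0 < w v i) → (∀ v i, w v i ≤ K) → (∀ v i, 1 ≤ K * w v i) →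
      ∀ W : Submodule k (ι → k), Module.finrank k W + 1 = Fintype.card ι → Gap A w R G W →
      ∃ w' : SP k T → ι → ℝ, (∀ v i, 0 < w' v i) ∧ (∏ v, ∏ i, w' v i) * G ≤ C ∧
        (∀ v i, w' v i ≤ C * K ^ a) ∧ (∀ v i, 1 ≤ C * K ^ a * w' v i) ∧ SpannedBy A w' W

/-- HT: hyperplanes spanned by small points. (proved in batch 4) -/
def HT : Prop :=
  ∀ (k : Type) [Field k] [NumberField k] (T : Finset (FinitePlace k)) (ι : Type) [Fintype ι]
    [DecidableEq ι] [Nonempty ι] (A : SP k T → Matrix ι ι k), (∀ v, (A v).det ≠ 0) →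
    2 ≤ Fintype.card ι → ∀ e : SP k T → ι → ℝ, ∑ v, ∑ i, e v i < 0 →
    Set.Finite {W : Submodule k (ι → k) | Module.finrank k W + 1 = Fintype.card ι ∧
      ∃ Q : ℝ, 1 ≤ Q ∧ SpannedBy A (wQ Q e) W}

/-- S11: finiteness of hyperplanes with a gap. -/
def GapHyp : Prop :=
  ∀ (k : Type) [Field k] [NumberField k] (T : Finset (FinitePlace k)) (ι : Type) [Fintype ι]
    [DecidableEq ι] [Nonempty ι] (A : SP k T → Matrix ι ι k), (∀ v, (A v).det ≠ 0) →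
    2 ≤ Fintype.card ι → ∀ B δ : ℝ, 0 < δ → ∃ Q0 : ℝ, 1 ≤ Q0 ∧
    Set.Finite {W : Submodule k (ι → k) | Module.finrank k W + 1 = Fintype.card ι ∧
      ∃ (Q : ℝ) (e : SP k T → ι → ℝ) (R : ℝ), Q0 ≤ Q ∧ (∀ v i, |e v i| ≤ B) ∧ 0 < R ∧
        Gap A (wQ Q e) R (Q ^ δ) W}

/-- S12: rectangular Cauchy–Binet. -/
def CauchyBinet : Prop :=
  ∀ (k : Type) [Field k] (r N : ℕ) (P : Matrix (Fin r) (Fin N) k) (Q : Matrix (Fin N) (Fin r) k),
    (P * Q).det = ∑ K : JJ r N, (P.submatrix id K.emb).det * (Q.submatrix K.emb id).det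

/-- S13: compound matrices. -/
def CmpdBasic : Prop :=
  ∀ (k : Type) [Field k] (r N : ℕ),
    (∀ A B : Matrix (Fin N) (Fin N) k, cmpd r (A * B) = cmpd r A * cmpd r B) ∧
    cmpd r (1 : Matrix (Fin N) (Fin N) k) = 1 ∧
    (∀ A : Matrix (Fin N) (Fin N) k, A.det ≠ 0 → (cmpd r A).det ≠ 0) ∧
    (∀ (A : Matrix (Fin N) (Fin N) k) (x : Fin r → Fin N → k),
      (cmpd r A).mulVec (wd x) = wd (fun b => A.mulVec (x b))) ∧
    (∀ x : Fin N → Fin N → k, LinearIndependent k x →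
      LinearIndependent k (fun I : JJ r N => wd (fun b => x (I.emb b))))

/-- S14: `HH` of a wedge. -/
def WdHH : Prop :=
  ∀ (k : Type) [Field k] [NumberField k] (T : Finset (FinitePlace k)) (r N : ℕ),
    1 ≤ r → r ≤ N → ∀ (A : SP k T → Matrix (Fin N) (Fin N) k),
    ∃ C : ℝ, 0 < C ∧ ∀ w : SP k T → Fin N → ℝ, (∀ v i, 0 < w v i) →
      ∀ y : Fin r → Fin N → k,
        HH (fun v => cmpd r (A v)) (fun v K => ∏ a, w v (K.emb a)) (wd y) ≤
          C * ∏ b, HH A w (y b)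

/-- S15: products over subsets. -/
def SubsetProd : Prop :=
  ∀ (r N : ℕ), 1 ≤ r → r ≤ N → ∀ f : Fin N → ℝ,
    ∏ I : JJ r N, ∏ a, f (I.emb a) = (∏ i, f i) ^ (N - 1).choose (r - 1)

/-- S16: `W^` is a hyperplane with an explicit basis, and it determines `W`. -/
def WwdBasic : Prop :=
  ∀ (k : Type) [Field k] (r N : ℕ), 1 ≤ r → r < N →
    (∀ x : Fin N → Fin N → k, LinearIndependent k x → ∀ W : Submodule k (Fin N → k),
      W = Submodule.span k (x '' {j | (j : ℕ) < N - r}) →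
      Wwd r W = Submodule.span k ((fun I : JJ r N => wd (fun b => x (I.emb b))) ''
        {I | ∃ b, ((I.emb b : Fin N) : ℕ) < N - r}) ∧
      Module.finrank k (Wwd r W) + 1 = Fintype.card (JJ r N)) ∧
    (∀ W W' : Submodule k (Fin N → k), Module.finrank k W + r = N →
      Module.finrank k W' + r = N → Wwd r W = Wwd r W' → W = W')

/-- S17: a gap for `W` gives a gap for `W^`. -/
def WwdGap : Prop :=
  ∀ (k : Type) [Field k] [NumberField k] (T : Finset (FinitePlace k)) (r N : ℕ), 1 ≤ r → r < N →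
    ∀ (A : SP k T → Matrix (Fin N) (Fin N) k), (∀ v, (A v).det ≠ 0) →
    ∃ C : ℝ, 1 ≤ C ∧ ∀ (w : SP k T → Fin N → ℝ) (R G : ℝ), (∀ v i, 0 < w v i) → 0 < R → C ≤ G →
      ∀ W : Submodule k (Fin N → k), Module.finrank k W + r = N → Gap A w R G W →
      ∃ R' : ℝ, 0 < R' ∧
        Gap (fun v => cmpd r (A v)) (fun v K => ∏ a, w v (K.emb a)) R' (G / C) (Wwd r W)

/-- S18: finiteness of all subspaces with a gap. -/
def GapAll : Prop :=
  ∀ (k : Type) [Field k] [NumberField k] (T : Finset (FinitePlace k)) (N : ℕ)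
    (A : SP k T → Matrix (Fin N) (Fin N) k), (∀ v, (A v).det ≠ 0) →
    ∀ B δ : ℝ, 0 < δ → ∃ Q0 : ℝ, 1 ≤ Q0 ∧
    Set.Finite {W : Submodule k (Fin N → k) | W ≠ ⊤ ∧
      ∃ (Q : ℝ) (e : SP k T → Fin N → ℝ) (R : ℝ), Q0 ≤ Q ∧ (∀ v i, |e v i| ≤ B) ∧ 0 < R ∧
        Gap A (wQ Q e) R (Q ^ δ) W}

/-- S19: Subspace theorem for `S`-integral points. -/
def SSTint : Prop :=
  ∀ (k : Type) [Field k] [NumberField k] (T : Finset (FinitePlace k)) (N : ℕ), 1 ≤ N →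
    ∀ (A : SP k T → Matrix (Fin N) (Fin N) k), (∀ v, (A v).det ≠ 0) →
    ∀ e : SP k T → Fin N → ℝ, ∑ v, ∑ i, e v i < 0 →
    ∃ (Q0 : ℝ) (F : Finset (Submodule k (Fin N → k))), 1 ≤ Q0 ∧ (∀ W ∈ F, W ≠ ⊤) ∧
      ∀ Q : ℝ, Q0 ≤ Q → ∀ x : Fin N → k, InBox A (wQ Q e) x → ∃ W ∈ F, x ∈ W

/-- S20: Subspace theorem, projective form. -/
def SSTX : Prop :=
  ∀ (k : Type) [Field k] [NumberField k] (T : Finset (FinitePlace k)) (N : ℕ), 1 ≤ N →
    ∀ (A : SP k T → Matrix (Fin N) (Fin N) k), (∀ v, (A v).det ≠ 0) →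
    ∀ c : SP k T → Fin N → ℝ, (N : ℝ) < ∑ v, ∑ i, c v i → ∀ C0 : ℝ, 0 < C0 →
    ∃ (H0 : ℝ) (F : Finset (Submodule k (Fin N → k))), (∀ W ∈ F, W ≠ ⊤) ∧
      ∀ (x : Fin N → k) (X : SP k T → ℝ) (z : FinitePlace k → ℤ) (H : ℝ),
        (∀ v, 0 < X v) → z.support.Finite → (∀ w ∈ T, z w = 0) →
        (∀ w : FinitePlace k, w ∉ T → ∀ i, w (x i) ≤ (qw w : ℝ) ^ z w) →
        H = (∏ v, X v) * ∏ᶠ w : FinitePlace k, (qw w : ℝ) ^ z w →
        H0 ≤ H → (∀ v i, nS v ((A v).mulVec x i) ≤ C0 * X v * H ^ (-c v i)) →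
        ∃ W ∈ F, x ∈ W

end Pool.Agent.Helper92.Ru
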