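import Pool.Agent.Helper92.Ru.GoalsV

/-! Final assembly: the statement of S18577 from `Dio`, `PtAll`, `PtSums` -/

set_option autoImplicit false

open NumberField MvPolynomial

namespace Pool.Agent.Helper92.Ru

theorem finrank_pos_nf (k : Type) [Field k] [NumberField k] (L : Type) [Field L] [NumberField L]
    [Algebra k L] : 1 ≤ Module.finrank k L := by
  haveI : Module.Finite k L := Module.Finite.of_restrictScalars_finite ℚ k L
  exact Module.finrank_pos

theorem exists_sigma (k : Type) [Field k] [NumberField k] (L : Type) [Field L] [NumberField L]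
    [Algebra k L] : Nonempty (Fin (Module.finrank k L) ≃ (L →ₐ[k] AlgebraicClosure k)) := by
  haveI : Module.Finite k L := Module.Finite.of_restrictScalars_finite ℚ k L
  have h : Fintype.card (L →ₐ[k] AlgebraicClosure k) = Module.finrank k L :=
    AlgHom.card k L (AlgebraicClosure k)
  exact ⟨(finCongr h.symm).trans (Fintype.equivFin _).symm⟩

theorem final (hD : Dio) (hP : PtAll) (hS : PtSums) :
    ∀ (k : Type) [Field k] [NumberField k] (T : Finset (FinitePlace k)) (n q : ℕ)
      (a : Fin q → Fin (n + 1) → k),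
      (∀ s : Finset (Fin q), s.card ≤ n + 1 → LinearIndependent k (fun i : s => a i)) →
      ∀ δ : ℕ, 1 ≤ δ → ∀ ε : ℝ, 0 < ε → ∃ C : ℝ,
        ∀ (L : Type) [Field L] [NumberField L] [Algebra k L], Module.finrank k L ≤ δ →
          ∀ x : Fin (n + 1) → L, x ≠ 0 →
            (∀ i, ∑ j, algebraMap k L (a i j) * x j ≠ 0) →
            (1 / (Module.finrank ℚ L : ℝ)) *
                ((∑ w : InfinitePlace L, (w.mult : ℝ) *
                    ∑ i, Real.log ((⨆ j, w (x j)) * (⨆ j, w (algebraMap k L (a i j))) /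
                      w (∑ j, algebraMap k L (a i j) * x j))) +
                  ∑ᶠ (w : FinitePlace L)
                    (_ : ∃ v ∈ T, ∀ y : k, (v y < 1 ↔ w (algebraMap k L y) < 1)),
                    ∑ i, Real.log ((⨆ j, w (x j)) * (⨆ j, w (algebraMap k L (a i j))) /
                      w (∑ j, algebraMap k L (a i j) * x j)))
              < (2 * (δ : ℝ) * (n : ℝ) + ε) *
                  ((1 / (Module.finrank ℚ L : ℝ)) *
                    ((∑ w : InfinitePlace L, (w.mult : ℝ) * Real.log (⨆ j, w (x j))) +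
                      ∑ᶠ w : FinitePlace L, Real.log (⨆ j, w (x j)))) + C := by
  intro k _ _ T n q a ha δ hδ ε hε
  have hGP : GP a := ha
  rcases Nat.eq_zero_or_pos n with hn | hn
  · -- n = 0
    subst hn
    refine ⟨1, ?_⟩
    intro L _ _ _ hL x hx hl
    have hs := hS k T 0 q 0 a L (fun i => Fin.elim0 i) x hx
    obtain ⟨-, hH, hH1⟩ := hs
    have hlog : 0 ≤ Real.log (ptOf T a (fun i : Fin 0 => Fin.elim0 i) x).H := Real.log_nonneg hH1
    rw [hH] at hlog
    have hD1 : (1 : ℝ) ≤ (Module.finrank ℚ L : ℝ) := by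
      have : 1 ≤ Module.finrank ℚ L := Module.finrank_pos
      exact_mod_cast this
    have key : ∀ (w : AbsoluteValue L ℝ) (i : Fin q),
        Real.log ((⨆ j : Fin 1, w (x j)) * (⨆ j : Fin 1, w (algebraMap k L (a i j))) /
          w (∑ j : Fin 1, algebraMap k L (a i j) * x j)) = 0 := by
      intro w i
      have h1 : (⨆ j : Fin 1, w (x j)) = w (x 0) := by
        rw [ciSup_unique]; rfl
      have h2 : (⨆ j : Fin 1, w (algebraMap k L (a i j))) = w (algebraMap k L (a i 0)) := by
        rw [ciSup_unique]; rfl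
      have h3 : (∑ j : Fin 1, algebraMap k L (a i j) * x j) = algebraMap k L (a i 0) * x 0 := by
        simp
      have h4 := hl i
      have h3' : (∑ j : Fin (0 + 1), algebraMap k L (a i j) * x j) =
        algebraMap k L (a i 0) * x 0 := h3
      rw [h3'] at h4
      rw [h1, h2, h3, map_mul]
      have h5 : w (algebraMap k L (a i 0)) * w (x 0) ≠ 0 := by
        rw [← map_mul]; exact (w.pos h4).ne'
      rw [mul_comm (w (x 0)), div_self h5, Real.log_one]
    have e1 : (∑ w : InfinitePlace L, (w.mult : ℝ) *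
        ∑ i, Real.log ((⨆ j, w (x j)) * (⨆ j, w (algebraMap k L (a i j))) /
          w (∑ j, algebraMap k L (a i j) * x j))) = 0 := by
      apply Finset.sum_eq_zero
      intro w _
      have : (∑ i, Real.log ((⨆ j, w (x j)) * (⨆ j, w (algebraMap k L (a i j))) /
          w (∑ j, algebraMap k L (a i j) * x j))) = 0 :=
        Finset.sum_eq_zero fun i _ => key w.1 i
      rw [this, mul_zero]
    have e2 : (∑ᶠ (w : FinitePlace L)
        (_ : ∃ v ∈ T, ∀ y : k, (v y < 1 ↔ w (algebraMap k L y) < 1)),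
        ∑ i, Real.log ((⨆ j, w (x j)) * (⨆ j, w (algebraMap k L (a i j))) /
          w (∑ j, algebraMap k L (a i j) * x j))) = 0 := by
      apply finsum_mem_eq_zero_of_forall_eq_zero
      intro w _
      exact Finset.sum_eq_zero fun i _ => key w.1 i
    rw [e1, e2]
    have hpos : 0 ≤ (1 / (Module.finrank ℚ L : ℝ)) := by positivity
    have h6 := mul_nonneg hpos hlog
    have h7 : 0 ≤ (2 * (δ : ℝ) * ((0 : ℕ) : ℝ) + ε) := by
      have : 0 ≤ 2 * (δ : ℝ) * ((0 : ℕ) : ℝ) := by simp
      linarith
    have h8 := mul_nonneg h7 h6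
    simp only [add_zero, mul_zero] at *
    linarith
  · -- n ≥ 1
    have hex : ∀ d : ℕ, ∃ C' : ℝ, 1 ≤ d → ∀ (L : Type) [Field L] [NumberField L] [Algebra k L],
        Module.finrank k L = d → ∀ (σ : Fin d ≃ (L →ₐ[k] AlgebraicClosure k))
        (x : Fin (n + 1) → L), x ≠ 0 → (∀ i, ∑ j, algebraMap k L (a i j) * x j ≠ 0) →
        (ptOf T a σ x).tot ≤ (2 * d * n + ε) * Real.log (ptOf T a σ x).H + C' := by
      intro d
      by_cases hd : 1 ≤ d
      · obtain ⟨C, Cf, hOK⟩ := hP k T n q d a hn hd hGP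
        obtain ⟨C', hC'⟩ := hD k T d n q a C Cf ε hd hn hGP hε
        refine ⟨C', fun _ L _ _ _ hL σ x hx hl => ?_⟩
        exact hC' _ (hOK L hL σ x hx hl)
      · exact ⟨0, fun h => absurd h hd⟩
    choose C' hC' using hex
    refine ⟨(∑ d ∈ Finset.range (δ + 1), |C' d|) + 1, ?_⟩
    intro L _ _ _ hL x hx hl
    have hd1 := finrank_pos_nf k L
    obtain ⟨σ⟩ := exists_sigma k L
    have hmain := hC' (Module.finrank k L) hd1 L rfl σ x hx hl
    obtain ⟨htot, hH, hH1⟩ := hS k T n q (Module.finrank k L) a L σ x hx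
    have hlog : 0 ≤ Real.log (ptOf T a σ x).H := Real.log_nonneg hH1
    have hD1 : (1 : ℝ) ≤ (Module.finrank ℚ L : ℝ) := by
      have : 1 ≤ Module.finrank ℚ L := Module.finrank_pos
      exact_mod_cast this
    have hCle : |C' (Module.finrank k L)| ≤ ∑ d ∈ Finset.range (δ + 1), |C' d| := by
      apply Finset.single_le_sum (f := fun d => |C' d|) (fun d _ => abs_nonneg _)
      simp only [Finset.mem_range]
      omega
    have hdn : (2 * (Module.finrank k L : ℝ) * (n : ℝ) + ε) ≤ 2 * (δ : ℝ) * (n : ℝ) + ε := by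
      have h1 : (Module.finrank k L : ℝ) ≤ (δ : ℝ) := by exact_mod_cast hL
      have h2 : (0 : ℝ) ≤ (n : ℝ) := by positivity
      nlinarith
    have h3 : (1 / (Module.finrank ℚ L : ℝ)) * (ptOf T a σ x).tot <
        (2 * (δ : ℝ) * (n : ℝ) + ε) * ((1 / (Module.finrank ℚ L : ℝ)) *
          Real.log (ptOf T a σ x).H) + ((∑ d ∈ Finset.range (δ + 1), |C' d|) + 1) := by
      have hpos : 0 < (1 / (Module.finrank ℚ L : ℝ)) := by positivity
      have hle1 : (1 / (Module.finrank ℚ L : ℝ)) ≤ 1 := by
        rw [div_le_one (by linarith)]; exact hD1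
      have h4 : (1 / (Module.finrank ℚ L : ℝ)) * (ptOf T a σ x).tot ≤
          (1 / (Module.finrank ℚ L : ℝ)) * ((2 * (Module.finrank k L : ℝ) * (n : ℝ) + ε) *
            Real.log (ptOf T a σ x).H + C' (Module.finrank k L)) :=
        mul_le_mul_of_nonneg_left hmain hpos.le
      have h5 : (2 * (Module.finrank k L : ℝ) * (n : ℝ) + ε) * Real.log (ptOf T a σ x).H ≤
          (2 * (δ : ℝ) * (n : ℝ) + ε) * Real.log (ptOf T a σ x).H :=
        mul_le_mul_of_nonneg_right hdn hlog
      have h6 : (1 / (Module.finrank ℚ L : ℝ)) * C' (Module.finrank k L) ≤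
          |C' (Module.finrank k L)| := by
        calc (1 / (Module.finrank ℚ L : ℝ)) * C' (Module.finrank k L)
            ≤ (1 / (Module.finrank ℚ L : ℝ)) * |C' (Module.finrank k L)| :=
              mul_le_mul_of_nonneg_left (le_abs_self _) hpos.le
          _ ≤ 1 * |C' (Module.finrank k L)| :=
              mul_le_mul_of_nonneg_right hle1 (abs_nonneg _)
          _ = _ := one_mul _
      have h7 := mul_le_mul_of_nonneg_left h5 hpos.le
      nlinarith [h4, h6, h7, hCle]
    rw [htot, hH] at h3
    exact h3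

end Pool.Agent.Helper92.Ru
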