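import Pool.Agent.Helper92.Ru.AsmB
import Pool.Agent.Helper92.Ru.Final
import Pool.Agent.Helper90.Ru.BadUnion
import Pool.Agent.Helper11.Ru.Discr
import Pool.Agent.Helper39.Ru.EvalBound
import Pool.Agent.Helper85.Ru.LinEx
import Pool.Agent.Helper77.Ru.SubStep
import Pool.Agent.Helper52.Ru.Dio
import Pool.Agent.Helper52.Ru.EvalK
import Pool.Agent.Helper52.Ru.EvalInf
import Pool.Agent.Helper56.Ru.PlBelow
import Pool.Agent.Helper7.Ru.PlAbove
import Pool.Agent.Helper58.Ru.PlPow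
import Pool.Agent.Helper30.Ru.GenLoc
import Pool.Agent.Helper87.Ru.InfProd
import Pool.Agent.Helper53.Ru.EvalFin
import Pool.Agent.Helper62.Ru.NormInf
import Pool.Agent.Helper34.Ru.PrLow
import Pool.Agent.Helper88.Ru.PrFew
import Pool.Agent.Helper97.Ru.HtHyp
import Pool.Agent.Helper74.Ru.PtAll
import Pool.Agent.Helper67.Ru.PtSums
import Pool.Agent.Helper22.Ru.Vanish

/-! Final assembly -/

set_option autoImplicit false

namespace Pool.Agent.Helper92.Ru

theorem vanish' : Vanish := Pool.Agent.Helper22.Ru.vanish Pool.Agent.Helper80.Ru.substBound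

theorem dio' (hM1 : M1int) (hMB : MaxBad) : Dio :=
  Pool.Agent.Helper52.Ru.dio hMB Pool.Agent.Helper90.Ru.badUnion
    (Pool.Agent.Helper11.Ru.discr Pool.Agent.Helper90.Ru.badUnion)
    (Pool.Agent.Helper77.Ru.subStep wMain (sstX' hM1 vanish') Pool.Agent.Helper39.Ru.evalBound
      Pool.Agent.Helper85.RuLinEx.goalLinEx)

theorem ptSums' (hN : PlNorm) : PtSums :=
  Pool.Agent.Helper67.Ru.ptSums Pool.Agent.Helper56.Ru.plBelow Pool.Agent.Helper7.Ru.plAbove
    Pool.Agent.Helper58.Ru.plPow Pool.Agent.Helper30.Ru.genLoc hN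

theorem ptAll' (hN : PlNorm) : PtAll :=
  Pool.Agent.Helper74.Ru.ptAll Pool.Agent.Helper56.Ru.plBelow Pool.Agent.Helper7.Ru.plAbove hN
    Pool.Agent.Helper58.Ru.plPow Pool.Agent.Helper52.Ru.evalK
    (Pool.Agent.Helper53.Ru.evalFin Pool.Agent.Helper30.Ru.genLoc hN Pool.Agent.Helper52.Ru.evalK)
    (Pool.Agent.Helper52.Ru.evalInf Pool.Agent.Helper87.Ru.infProd)
    (normInf Pool.Agent.Helper87.Ru.infProd) Pool.Agent.Helper34.Ru.prLow
    (Pool.Agent.Helper88.Ru.prFew Pool.Agent.Helper58.Ru.plPow)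
    (Pool.Agent.Helper97.Ru.htHyp Pool.Agent.Helper56.Ru.plBelow Pool.Agent.Helper7.Ru.plAbove
      Pool.Agent.Helper58.Ru.plPow)
    (ptSums' hN)

end Pool.Agent.Helper92.Ru
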