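import Pool.Agent.Helper92.Ru.DefsW

/-! Goals of part W -/

set_option autoImplicit false

open MvPolynomial

namespace Pool.Agent.Helper92.Ru

/-- W1: star configuration. If `|T| ≥ dn+1` and `m ≥ q` then every multihomogeneous form of
multidegree `(m,...,m)` is `Σ_{i ∈ T} N(ℓ_i) g_i`. -/
def StarB : Prop :=
  ∀ (k : Type) [Field k] (d n q : ℕ) (a : Fin q → Fin (n + 1) → k), 1 ≤ d → GP a →
    ∀ T : Finset (Fin q), d * n + 1 ≤ T.card → ∀ m : ℕ, q ≤ m → ∀ f : BB k d n, MHom m f →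
      ∃ g : Fin q → BB k d n, (∀ i, MHom (m - 1) (g i)) ∧ f = ∑ i ∈ T, Nl d (a i) * g i

/-- W2: the same inside the symmetric ring. -/
def StarR : Prop :=
  ∀ (k : Type) [Field k] [CharZero k] (d n q : ℕ) (a : Fin q → Fin (n + 1) → k), 1 ≤ d → GP a →
    ∀ T : Finset (Fin q), d * n + 1 ≤ T.card → ∀ m : ℕ, q ≤ m → ∀ f ∈ Rm k d n m,
      ∃ g : Fin q → BB k d n, (∀ i, g i ∈ Rm k d n (m - 1)) ∧ f = ∑ i ∈ T, Nl d (a i) * g i

/-- W3: extraction. -/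
def Extract : Prop :=
  ∀ (k : Type) [Field k] [CharZero k] (d n q : ℕ) (a : Fin q → Fin (n + 1) → k), 1 ≤ d → GP a →
    ∀ (z : Fin q → ℕ) (β m t : ℕ), q ≤ m →
      d * n + 1 ≤ (Finset.univ.filter (fun i => β ≤ z i)).card →
      Fil d a (fun i => z i - β) t m ≤ Fil d a z (t + β * (m - q)) m

/-- W4a: two filtrations on one finite dimensional space. -/
def TwoFil : Prop :=
  ∀ (k : Type) [Field k] (V : Type) [AddCommGroup V] [Module k V] [FiniteDimensional k V]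
    (F G : ℕ → Submodule k V), Antitone F → Antitone G → F 0 = ⊤ → G 0 = ⊤ →
    ∀ A B : ℕ, F (A + 1) = ⊥ → G (B + 1) = ⊥ → ∀ N : ℕ,
      ∑ t ∈ Finset.Icc 1 N,
          Module.finrank k (⨆ i : Fin (t + 1), F i ⊓ G (t - i) : Submodule k V) ≤
        (∑ t ∈ Finset.Icc 1 A, Module.finrank k (F t)) +
          ∑ t ∈ Finset.Icc 1 B, Module.finrank k (G t)

/-- W4: subadditivity of `S_m`. -/
def SubAdd : Prop :=
  ∀ (k : Type) [Field k] (d n q : ℕ) (a : Fin q → Fin (n + 1) → k)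
    (V : Type) [AddCommGroup V] [Module k V] (φ : BB k d n →ₗ[k] V) (lam mu : Fin q → ℕ) (m : ℕ),
      Ssum d a φ (fun i => lam i + mu i) m ≤ Ssum d a φ lam m + Ssum d a φ mu m

/-- W5: `S_m(z) ≥ β (m - q) dim φ(R_m) + S_m((z - β)_+)` if at least `dn+1` of the `z_i` are
`≥ β`. -/
def ExtractS : Prop :=
  ∀ (k : Type) [Field k] [CharZero k] (d n q : ℕ) (a : Fin q → Fin (n + 1) → k), 1 ≤ d → GP a →
    ∀ (V : Type) [AddCommGroup V] [Module k V] (φ : BB k d n →ₗ[k] V)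
      (z : Fin q → ℕ) (β m : ℕ), q ≤ m →
      d * n + 1 ≤ (Finset.univ.filter (fun i => β ≤ z i)).card →
      β * (m - q) * Module.finrank k ((Rm k d n m).map φ) +
        Ssum d a φ (fun i => z i - β) m ≤ Ssum d a φ z m

/-- W6: the accumulator process (pure combinatorics). -/
def Proc : Prop :=
  ∀ (q M L s : ℕ) (lam : Fin s → Fin q → ℕ) (K : ℝ) (Φ : (Fin q → ℕ) → ℝ),
    1 ≤ M → 0 ≤ K → (∀ z, 0 ≤ Φ z) → Φ 0 = 0 → (∀ x y, Φ (fun i => x i + y i) ≤ Φ x + Φ y) →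
    (∀ (z : Fin q → ℕ) (β : ℕ), M + 1 ≤ (Finset.univ.filter (fun i => β ≤ z i)).card →
      β * K + Φ (fun i => z i - β) ≤ Φ z) →
    (∀ v, (Finset.univ.filter (fun i => lam v i ≠ 0)).card ≤ M) →
    (∀ i, ∑ v, lam v i ≤ L) → 2 * M * L + 1 ≤ ∑ v, ∑ i, lam v i →
      ((L : ℝ) + 1 / (4 * M)) * K ≤ ∑ v, Φ (lam v)

/-- W7: main result of part W. -/
def WMain : Prop :=
  ∀ (k : Type) [Field k] [CharZero k] (d n q : ℕ) (a : Fin q → Fin (n + 1) → k),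
    1 ≤ d → 1 ≤ n → GP a →
    ∀ (L s : ℕ) (lam : Fin s → Fin q → ℕ),
      (∀ v, (Finset.univ.filter (fun i => lam v i ≠ 0)).card ≤ d * n) →
      (∀ i, ∑ v, lam v i ≤ L) → 2 * (d * n) * L + 1 ≤ ∑ v, ∑ i, lam v i →
      ∃ m0 : ℕ, ∀ m : ℕ, m0 ≤ m →
        ∀ (V : Type) [AddCommGroup V] [Module k V] (φ : BB k d n →ₗ[k] V),
        (8 * (d * n) * L + 1) * m * Module.finrank k ((Rm k d n m).map φ) ≤
          8 * (d * n) * ∑ v, Ssum d a φ (lam v) m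

end Pool.Agent.Helper92.Ru
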