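import Mathlib

/-!
# Definitions for Roth's lemma (rational points over a number field)
-/

set_option autoImplicit false

open MvPolynomial

namespace Pool.Agent.Helper92.Ru

/-- multiplicative height of the coefficient vector of a polynomial (`= 1` for the zero
polynomial) -/
noncomputable def PH {k : Type} [Field k] [NumberField k] {σ : Type} (p : MvPolynomial σ k) : ℝ :=
  Height.mulHeight (fun e : p.support => coeff e.1 p)

/-- divided (Hasse) derivative of order `μ` -/
noncomputable def hasse {k : Type} [Field k] {σ : Type} (μ : σ →₀ ℕ) :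
    MvPolynomial σ k →ₗ[k] MvPolynomial σ k :=
  (basisMonomials σ k).constr k
    (fun e => monomial (e - μ) ((∏ i ∈ μ.support, (e i).choose (μ i) : ℕ) : k))

/-- the translate `p(t + ξ)` -/
noncomputable def shiftP {k : Type} [Field k] {σ : Type} (ξ : σ → k) :
    MvPolynomial σ k →ₐ[k] MvPolynomial σ k :=
  aeval (fun h => X h + C (ξ h))

/-- the index of `p` at `ξ` with respect to `r` is at least `θ`: every monomial `t^e` of
`p(t + ξ)` satisfies `θ ≤ Σ e_h / r_h` -/
def IndGe {k : Type} [Field k] {σ : Type} [Fintype σ] (r : σ → ℕ) (ξ : σ → k) (θ : ℝ)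
    (p : MvPolynomial σ k) : Prop :=
  ∀ e ∈ (shiftP ξ p).support, θ ≤ ∑ h, (e h : ℝ) / (r h : ℝ)

/-- exponent in `m+1` variables from an exponent in the first `m` and one in the last -/
noncomputable def cmb {m : ℕ} (μ : Fin m →₀ ℕ) (ν : Fin 1 →₀ ℕ) : Fin (m + 1) →₀ ℕ :=
  μ.mapDomain Fin.castSucc + ν.mapDomain (fun _ => Fin.last m)

/-- the product `U(t_1..t_m) V(t_{m+1})` -/
noncomputable def UV {k : Type} [Field k] {m : ℕ} (U : MvPolynomial (Fin m) k)
    (V : MvPolynomial (Fin 1) k) : MvPolynomial (Fin (m + 1)) k :=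
  rename Fin.castSucc U * rename (fun _ => Fin.last m) V

/-- Roth's lemma in `m` variables -/
def RothStmt (m : ℕ) : Prop :=
  ∀ (k : Type) [Field k] [NumberField k] (σ : ℝ), 0 < σ →
    ∃ ω C : ℝ, 0 < ω ∧ ω ≤ 1 ∧ 0 < C ∧
      ∀ (r : Fin m → ℕ) (R : ℕ) (ξ : Fin m → k) (p : MvPolynomial (Fin m) k) (θ : ℝ),
        p ≠ 0 → (∀ h, 1 ≤ r h ∧ r h ≤ R) → (∀ h, p.degreeOf h ≤ r h) →
        (∀ h h' : Fin m, h < h' → (r h' : ℝ) ≤ ω * r h) →
        (∀ h, C * (Real.log (PH p) + R) ≤ r h * Height.logHeight₁ (ξ h)) →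
        IndGe r ξ θ p → θ ≤ σ

end Pool.Agent.Helper92.Ru
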