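import Pool.Agent.Helper92.Ru.DefsR

/-! Goals for Roth's lemma -/

set_option autoImplicit false

open MvPolynomial

namespace Pool.Agent.Helper92.Ru

/-- R1: coefficients of Hasse derivatives, relation with `pderiv`, commutation with shifts. -/
def HasseBasic : Prop :=
  ∀ (k : Type) [Field k] [CharZero k] (σ : Type) [Fintype σ] [DecidableEq σ] (μ : σ →₀ ℕ) (p : MvPolynomial σ k),
    (∀ a : σ →₀ ℕ, coeff a (hasse μ p) = ((∏ i, (a i + μ i).choose (μ i) : ℕ) : k) * coeff (a + μ) p) ∧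
    (∀ h, pderiv h (hasse μ p) = ((μ h + 1 : ℕ) : k) • hasse (μ + Finsupp.single h 1) p) ∧
    (∀ ξ : σ → k, shiftP ξ (hasse μ p) = hasse μ (shiftP ξ p)) ∧
    hasse 0 p = p

/-- R2: if `D ∂N = N ∂D` for all partial derivatives then `N = c D`. -/
def PropConst : Prop :=
  ∀ (k : Type) [Field k] [CharZero k] (σ : Type) [Fintype σ] (N D : MvPolynomial σ k), D ≠ 0 →
    (∀ h, D * pderiv h N = N * pderiv h D) → ∃ c : k, N = C c * D

/-- R3: generalised Wronskian. -/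
def GenWron : Prop :=
  ∀ (k : Type) [Field k] [CharZero k] (σ : Type) [Fintype σ] [DecidableEq σ] (s : ℕ)
    (f : Fin s → MvPolynomial σ k), LinearIndependent k f →
    ∃ μ : Fin s → (σ →₀ ℕ), (∀ i, ∑ h, μ i h ≤ i) ∧
      (Matrix.of (fun i j => hasse (μ i) (f j))).det ≠ 0

/-- R4: minimal decomposition `p = Σ f_j(t_1..t_m) g_j(t_{m+1})`. -/
def Decomp : Prop :=
  ∀ (k : Type) [Field k] (m : ℕ) (p : MvPolynomial (Fin (m + 1)) k), p ≠ 0 →
    ∃ (s : ℕ) (f : Fin s → MvPolynomial (Fin m) k) (g : Fin s → MvPolynomial (Fin 1) k),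
      1 ≤ s ∧ s ≤ p.degreeOf (Fin.last m) + 1 ∧ LinearIndependent k f ∧ LinearIndependent k g ∧
      (∀ j h, (f j).degreeOf h ≤ p.degreeOf (Fin.castSucc h)) ∧
      (∀ j, (g j).degreeOf 0 ≤ p.degreeOf (Fin.last m)) ∧
      p = ∑ j, UV (f j) (g j)

/-- R5: the determinant of mixed Hasse derivatives factors. -/
def WronFact : Prop :=
  ∀ (k : Type) [Field k] (m s : ℕ) (f : Fin s → MvPolynomial (Fin m) k)
    (g : Fin s → MvPolynomial (Fin 1) k) (μ : Fin s → (Fin m →₀ ℕ)) (ν : Fin s → (Fin 1 →₀ ℕ)),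
    (Matrix.of (fun i j => hasse (cmb (μ i) (ν j)) (∑ l, UV (f l) (g l)))).det =
      UV (Matrix.of (fun i l => hasse (μ i) (f l))).det
        (Matrix.of (fun j l => hasse (ν j) (g l))).det

/-- R6: degrees of the Wronskian determinants. -/
def WronDeg : Prop :=
  ∀ (k : Type) [Field k] (σ : Type) [Fintype σ] [DecidableEq σ] (s : ℕ)
    (f : Fin s → MvPolynomial σ k) (μ : Fin s → (σ →₀ ℕ)) (h : σ) (d : ℕ),
    (∀ j, (f j).degreeOf h ≤ d) →
    ((Matrix.of (fun i l => hasse (μ i) (f l))).det).degreeOf h ≤ s * d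

/-- R7: heights from local inequalities. -/
def HeightLocal : Prop :=
  ∀ (k : Type) [Field k] [NumberField k] (ι ι' : Type) [Finite ι] [Finite ι'] (x : ι → k)
    (y : ι' → k) (s : ℕ) (c : ℝ), y ≠ 0 → 1 ≤ c →
    (∀ (v : NumberField.InfinitePlace k) (i : ι), v (x i) ≤ c * (⨆ j, v (y j)) ^ s) →
    (∀ (v : NumberField.FinitePlace k) (i : ι), v (x i) ≤ (⨆ j, v (y j)) ^ s) →
    Height.mulHeight x ≤ c ^ (Module.finrank ℚ k) * Height.mulHeight y ^ s

/-- R8: height of the determinant of mixed Hasse derivatives. -/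
def DetHeight : Prop :=
  ∀ (k : Type) [Field k] [NumberField k] (σ : Type) [Fintype σ] [DecidableEq σ] (s R : ℕ)
    (p : MvPolynomial σ k) (M : Fin s → Fin s → (σ →₀ ℕ)), p ≠ 0 → 1 ≤ R → s ≤ R + 1 →
    (∀ h, p.degreeOf h ≤ R) →
    PH (Matrix.of (fun i j => hasse (M i j) p)).det ≤
      2 ^ ((2 * Fintype.card σ + 1) * R * s * Module.finrank ℚ k) * PH p ^ s

/-- R9: index of the determinant. -/
def DetIndex : Prop :=
  ∀ (k : Type) [Field k] [CharZero k] (σ : Type) [Fintype σ] [DecidableEq σ] (s : ℕ) (r : σ → ℕ) (ξ : σ → k)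
    (θ : ℝ) (c : Fin s → ℝ) (p : MvPolynomial σ k) (M : Fin s → Fin s → (σ →₀ ℕ)),
    IndGe r ξ θ p → (∀ i j, ∑ h, (M i j h : ℝ) / (r h : ℝ) ≤ c j) →
    IndGe r ξ (∑ j, max 0 (θ - c j)) (Matrix.of (fun i j => hasse (M i j) p)).det

/-- R10: index of a product in disjoint variables. -/
def IndMul : Prop :=
  ∀ (k : Type) [Field k] (m : ℕ) (r : Fin (m + 1) → ℕ) (ξ : Fin (m + 1) → k) (θ : ℝ)
    (U : MvPolynomial (Fin m) k) (V : MvPolynomial (Fin 1) k), U ≠ 0 → V ≠ 0 →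
    IndGe r ξ θ (UV U V) → ∃ a b : ℝ, 0 ≤ a ∧ 0 ≤ b ∧ θ ≤ a + b ∧
      IndGe (fun h => r (Fin.castSucc h)) (fun h => ξ (Fin.castSucc h)) a U ∧
      IndGe (fun _ => r (Fin.last m)) (fun _ => ξ (Fin.last m)) b V

/-- R11: height of a product in disjoint variables. -/
def PHMul : Prop :=
  ∀ (k : Type) [Field k] [NumberField k] (m : ℕ)
    (U : MvPolynomial (Fin m) k) (V : MvPolynomial (Fin 1) k), U ≠ 0 → V ≠ 0 →
    PH (UV U V) = PH U * PH V

/-- R12: one variable: a zero of order `s` at `ξ` forces a large height. -/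
def DivBound : Prop :=
  ∀ (k : Type) [Field k] [NumberField k] (ξ : k) (s r : ℕ) (p : MvPolynomial (Fin 1) k),
    p ≠ 0 → p.degreeOf 0 ≤ r → (∀ e ∈ (shiftP (fun _ => ξ) p).support, s ≤ e 0) →
    Height.mulHeight₁ ξ ^ s ≤ 2 ^ (r * Module.finrank ℚ k) * PH p

/-- R13: base case. -/
def RothBase : Prop := DivBound → RothStmt 1

/-- R14: the algebraic content of the induction step. -/
def RothAlg : Prop :=
  ∀ (k : Type) [Field k] [NumberField k] (m : ℕ) (r : Fin (m + 1) → ℕ) (R : ℕ)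
    (ξ : Fin (m + 1) → k) (p : MvPolynomial (Fin (m + 1)) k) (θ ω : ℝ),
    p ≠ 0 → (∀ h, 1 ≤ r h ∧ r h ≤ R) → (∀ h, p.degreeOf h ≤ r h) →
    (∀ h : Fin m, (r (Fin.last m) : ℝ) ≤ ω * r (Fin.castSucc h)) → 0 ≤ ω →
    IndGe r ξ θ p →
    ∃ (s : ℕ) (U : MvPolynomial (Fin m) k) (V : MvPolynomial (Fin 1) k),
      1 ≤ s ∧ s ≤ r (Fin.last m) + 1 ∧ U ≠ 0 ∧ V ≠ 0 ∧
      (∀ h, U.degreeOf h ≤ s * r (Fin.castSucc h)) ∧ V.degreeOf 0 ≤ s * r (Fin.last m) ∧
      Real.log (PH U) + Real.log (PH V) ≤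
        s * (Real.log (PH p) + (2 * (m + 1) + 1) * Module.finrank ℚ k * Real.log 2 * R) ∧
      ∃ a b : ℝ, 0 ≤ a ∧ 0 ≤ b ∧
        ∑ j : Fin s, max 0 (θ - ω - (j : ℝ) / (r (Fin.last m) : ℝ)) ≤ a + b ∧
        IndGe (fun h => r (Fin.castSucc h)) (fun h => ξ (Fin.castSucc h)) a U ∧
        IndGe (fun _ => r (Fin.last m)) (fun _ => ξ (Fin.last m)) b V

/-- R15: the induction step and the conclusion. -/
def RothAll : Prop := RothAlg → RothStmt 1 → ∀ m : ℕ, RothStmt m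

end Pool.Agent.Helper92.Ru
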