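import Pool.Agent.Helper31.Ru.StarB
import Pool.Agent.Helper86.Ru.StarR
import Pool.Agent.Helper90.Ru.Extract
import Pool.Agent.Helper3.Ru.TwoFil
import Pool.Agent.Helper27.Ru.SubAdd
import Pool.Agent.Helper6.Ru.ExtractS
import Pool.Agent.Helper67.Ru.Proc
import Pool.Agent.Helper45.Ru.WMainProof
import Pool.Agent.Helper40.Ru.HasseBasic
import Pool.Agent.Helper75.Ru.PropConst
import Pool.Agent.Helper30.Ru.GenWron
import Pool.Agent.Helper59.Ru.Decomp
import Pool.Agent.Helper54.Ru.Basic54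
import Pool.Agent.Helper34.Ru.WronDeg
import Pool.Agent.Helper96.Ru.HeightLocal
import Pool.Agent.Helper15.Ru.DetH
import Pool.Agent.Helper18.Ru.DetIndex
import Pool.Agent.Helper20.Ru.IndMul
import Pool.Agent.Helper9.Ru.DivBound
import Pool.Agent.Helper15.Ru.Base
import Pool.Agent.Helper40.Ru.RothAlg
import Pool.Agent.Helper26.Ru.RothAll

/-! Assembly of part W and of Roth's lemma -/

set_option autoImplicit false

namespace Pool.Agent.Helper92.Ru

theorem wMain : WMain :=
  Pool.Agent.Helper45.Ru.wMain (Pool.Agent.Helper27.Ru.subAdd Pool.Agent.Helper3.Ru.twoFil)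
    (Pool.Agent.Helper6.Ru.extractS
      (Pool.Agent.Helper90.Ru.extract
        (Pool.Agent.Helper86.Ru.starR_of_starB Pool.Agent.Helper31.Ru.starB)))
    Pool.Agent.Helper67.Ru.proc

theorem rothLemma : ∀ m : ℕ, RothStmt m :=
  Pool.Agent.Helper26.Ru.rothAll
    (Pool.Agent.Helper40.Ru.rothAlg
      (Pool.Agent.Helper30.Ru.genWron Pool.Agent.Helper40.Ru.hasseBasic
        Pool.Agent.Helper75.Ru.propConst)
      Pool.Agent.Helper59.Ru.decomp
      Pool.Agent.Helper54.Ru.wronFact
      Pool.Agent.Helper34.Ru.wronDeg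
      (Pool.Agent.Helper15.Ru.detHeight Pool.Agent.Helper40.Ru.hasseBasic
        Pool.Agent.Helper96.Ru.heightLocal)
      (Pool.Agent.Helper18.Ru.detIndex Pool.Agent.Helper40.Ru.hasseBasic)
      Pool.Agent.Helper20.Ru.indMul
      Pool.Agent.Helper54.Ru.phMul)
    (Pool.Agent.Helper15.Ru.rothBase
      (Pool.Agent.Helper9.Ru.divBound Pool.Agent.Helper96.Ru.heightLocal))

end Pool.Agent.Helper92.Ru
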