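import Pool.Agent.Helper92.Ru.AsmA
import Pool.Agent.Helper85.Ru.M1
import Pool.Agent.Helper64.Ru.Bal
import Pool.Agent.Helper29.Ru.Bal1
import Pool.Agent.Helper39.Ru.DetLB
import Pool.Agent.Helper8.Ru.HHLB
import Pool.Agent.Helper23.Ru.GreedyEx
import Pool.Agent.Helper87.Ru.Dav
import Pool.Agent.Helper33.Ru.Twist
import Pool.Agent.Helper4.Ru.MinkTwo
import Pool.Agent.Helper55.Ru.Flat
import Pool.Agent.Helper84.Ru.GapHyp
import Pool.Agent.Helper36.Ru.CB
import Pool.Agent.Helper26.Ru.CmpdBasic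
import Pool.Agent.Helper99.Ru.WdHH
import Pool.Agent.Helper48.Ru.SubsetProd
import Pool.Agent.Helper3.Ru.Wwd
import Pool.Agent.Helper74.Ru.WwdGap
import Pool.Agent.Helper41.Ru.GapAll
import Pool.Agent.Helper87.Ru.SSTint
import Pool.Agent.Helper18.Ru.SSTX
import Pool.Agent.Helper90.Ru.Cheb
import Pool.Agent.Helper97.Ru.MonsCard
import Pool.Agent.Helper19.Ru.AuxCoeff
import Pool.Agent.Helper68.Ru.AuxPoly
import Pool.Agent.Helper80.Ru.SubstBound
import Pool.Agent.Helper96.Ru.Red1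
import Pool.Agent.Helper64.Ru.Red2
import Pool.Agent.Helper30.Ru.Red3
import Pool.Agent.Helper73.Ru.BoxFin
import Pool.Agent.Helper85.Ru.XiPick
import Pool.Agent.Helper87.Ru.PHBound
import Pool.Agent.Helper93.Ru.ColMatP
import Pool.Agent.Helper61.Ru.HtLow
import Pool.Agent.Helper12.Ru.HTasm

/-! Assembly of the Subspace theorem (k-rational forms) -/

set_option autoImplicit false

namespace Pool.Agent.Helper92.Ru

section
variable (hM1 : M1int) (hV : Vanish)
include hM1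

theorem m1 : M1 := Pool.Agent.Helper85.RuM1.goalM1 hM1

theorem twist' : Twist := twist_of_dav Pool.Agent.Helper87.Ru.dav

theorem m2 : M2 := Pool.Agent.Helper4.Ru.minkTwo (m1 hM1) (twist' hM1)

theorem greedyEx' : GreedyEx := Pool.Agent.Helper23.Ru.greedyEx Pool.Agent.Helper8.Ru.hhlb

theorem flat' : Flat :=
  Pool.Agent.Helper55.Ru.flat (bal1' Pool.Agent.Helper64.Ru.bal) Pool.Agent.Helper39.Ru.detLB
    Pool.Agent.Helper8.Ru.hhlb (greedyEx' hM1) (twist' hM1) (m2 hM1)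

include hV

theorem ht : HT :=
  Pool.Agent.Helper12.Ru.htasm
    (Pool.Agent.Helper68.Ru.aux Pool.Agent.Helper90.Ru.cheb Pool.Agent.Helper97.Ru.monsCard
      Pool.Agent.Helper19.Ru.AuxCoeff_holds)
    hV Pool.Agent.Helper96.Ru.red1 Pool.Agent.Helper64.Ru.red2 Pool.Agent.Helper30.Ru.red3
    Pool.Agent.Helper73.Ru.boxFin Pool.Agent.Helper85.RuXiPick.goalXiPick
    Pool.Agent.Helper87.Ru.pHBound Pool.Agent.Helper93.Ru.colMat
    (Pool.Agent.Helper61.Ru.htLow Pool.Agent.Helper93.Ru.colMat) rothLemma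

theorem cmpdBasic' : CmpdBasic :=
  Pool.Agent.Helper26.Ru.cmpdBasic Pool.Agent.Helper36.Ru.cauchyBinet

theorem wwdBasic' : WwdBasic := Pool.Agent.Helper3.Ru.wwdBasic (cmpdBasic' hM1 hV)

theorem gapAll' : GapAll :=
  Pool.Agent.Helper41.Ru.gapAll
    (Pool.Agent.Helper84.Ru.gapHyp (flat' hM1) (ht hM1 hV))
    (Pool.Agent.Helper74.Ru.wwdGap Pool.Agent.Helper39.Ru.detLB (greedyEx' hM1) (m2 hM1)
      (cmpdBasic' hM1 hV)
      (WdHHProof.wdHH (cmpdBasic' hM1 hV))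
      Pool.Agent.Helper48.Ru.subsetProd (wwdBasic' hM1 hV))
    (wwdBasic' hM1 hV) (cmpdBasic' hM1 hV)

/-- Subspace theorem for `S`-integral points, `k`-rational forms, fixed exponents. -/
theorem sstInt' : SSTint :=
  Pool.Agent.Helper87.Ru.sstint Pool.Agent.Helper39.Ru.detLB (greedyEx' hM1) (gapAll' hM1 hV)

theorem sstX' : SSTX := Pool.Agent.Helper18.Ru.sstx Pool.Agent.Helper64.Ru.bal (sstInt' hM1 hV)

end

end Pool.Agent.Helper92.Ru
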