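import Pool.Agent.Helper92.Ru.GoalsV

set_option autoImplicit false

open NumberField MvPolynomial

namespace Pool.Agent.Helper92.Ru

theorem maxBad : MaxBad := by
  intro k _ _ T d n q 𝒬 κ hbad
  have hne : ({J : Ideal (BB k d n) | ∃ 𝒬' : Set (Pt k T d n q), 𝒬' ⊆ 𝒬 ∧ Bad κ 𝒬' ∧
      JJid 𝒬' = J}).Nonempty := ⟨JJid 𝒬, 𝒬, subset_rfl, hbad, rfl⟩
  obtain ⟨J, ⟨𝒬', h1, h2, h3⟩, hmax⟩ :=
    set_has_maximal_iff_noetherian.2 (inferInstance : IsNoetherian (BB k d n) (BB k d n)) _ hne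
  refine ⟨𝒬', h1, h2, ?_⟩
  intro 𝒬'' h4 h5
  have hle : JJid 𝒬' ≤ JJid 𝒬'' := by
    intro f hf P hP π
    exact hf P (h4 hP) π
  have hnot := hmax (JJid 𝒬'') ⟨𝒬'', h4.trans h1, h5, rfl⟩
  rw [← h3] at hnot
  by_contra hne'
  exact hnot (lt_of_le_of_ne hle (fun h => hne' h.symm))

end Pool.Agent.Helper92.Ru
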