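import Pool.Agent.Helper92.Ru.GoalsV
import Pool.Agent.Helper56.Ru.PlBelow
import Pool.Agent.Helper7.Ru.PlAbove

set_option autoImplicit false

open NumberField MvPolynomial IsDedekindDomain

namespace Pool.Agent.Helper92.Ru

section
variable {k : Type} [Field k] [NumberField k] {L : Type} [Field L] [NumberField L] [Algebra k L]

theorem liesOver_of_above {v : FinitePlace k} {w : FinitePlace L} (h : Above v w) :
    w.maximalIdeal.asIdeal.LiesOver v.maximalIdeal.asIdeal := by
  constructor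
  ext x
  rw [← Pool.Agent.Helper56.Ru.lt_one_iff_mem, h, Ideal.mem_comap,
    ← Pool.Agent.Helper56.Ru.lt_one_iff_mem]
  rfl

theorem relNorm_key (v : FinitePlace k) (S : Finset (FinitePlace L)) (hS : ∀ w, w ∈ S ↔ Above v w)
    (I : Ideal (𝓞 L)) (hI : I ≠ 0) :
    (qw v) ^ multiplicity v.maximalIdeal.asIdeal (Ideal.relNorm (𝓞 k) I) =
      ∏ w ∈ S, (qw w) ^ multiplicity w.maximalIdeal.asIdeal I := by
  classical
  revert hI
  have hpv : Prime v.maximalIdeal.asIdeal := v.maximalIdeal.prime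
  refine UniqueFactorizationMonoid.induction_on_prime I ?_ ?_ ?_
  · intro h; exact absurd rfl h
  · intro u hu _
    have hu1 : u = 1 := by simpa using hu
    subst hu1
    rw [map_one]
    have h1 : ∀ {R : Type} [CommRing R] [IsDedekindDomain R] (P : Ideal R), Prime P →
        multiplicity P (1 : Ideal R) = 0 := by
      intro R _ _ P hP
      exact multiplicity_eq_zero.2 (fun h => hP.not_unit (isUnit_of_dvd_one h))
    rw [h1 _ hpv, pow_zero]
    symm
    apply Finset.prod_eq_one
    intro w _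
    rw [h1 _ w.maximalIdeal.prime, pow_zero]
  · intro A Q hA hQ ih _
    have hQ0 : Q ≠ 0 := hQ.ne_zero
    have ihA := ih hA
    have hfin : ∀ {R : Type} [CommRing R] [IsDedekindDomain R] (P J : Ideal R), Prime P → J ≠ 0 →
        FiniteMultiplicity P J := by
      intro R _ _ P J hP hJ
      exact FiniteMultiplicity.of_prime_left hP hJ
    have hrA : Ideal.relNorm (𝓞 k) A ≠ 0 := by
      intro h; exact hA (Ideal.relNorm_eq_bot_iff.1 h)
    have hrQ : Ideal.relNorm (𝓞 k) Q ≠ 0 := by
      intro h; exact hQ0 (Ideal.relNorm_eq_bot_iff.1 h)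
    rw [map_mul, multiplicity_mul hpv (hfin _ _ hpv (mul_ne_zero hrQ hrA)), pow_add, ihA]
    have h2 : ∏ w ∈ S, (qw w) ^ multiplicity w.maximalIdeal.asIdeal (Q * A) =
        (∏ w ∈ S, (qw w) ^ multiplicity w.maximalIdeal.asIdeal Q) *
          ∏ w ∈ S, (qw w) ^ multiplicity w.maximalIdeal.asIdeal A := by
      rw [← Finset.prod_mul_distrib]
      apply Finset.prod_congr rfl
      intro w _
      rw [multiplicity_mul w.maximalIdeal.prime
        (hfin _ _ w.maximalIdeal.prime (mul_ne_zero hQ0 hA)), pow_add]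
    rw [h2]
    congr 1
    -- prime case
    have hQp : Q.IsPrime := Ideal.isPrime_of_prime hQ
    have hQm : Q.IsMaximal := hQp.isMaximal hQ0
    let u : FinitePlace L := FinitePlace.mk ⟨Q, hQp, hQ0⟩
    have hu : u.maximalIdeal.asIdeal = Q := by
      show (FinitePlace.mk ⟨Q, hQp, hQ0⟩ : FinitePlace L).maximalIdeal.asIdeal = Q
      rw [FinitePlace.maximalIdeal_mk]
    obtain ⟨v', hv', -⟩ := Pool.Agent.Helper56.Ru.plBelow k L u
    have hlo : u.maximalIdeal.asIdeal.LiesOver v'.maximalIdeal.asIdeal := liesOver_of_above hv'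
    rw [hu] at hlo
    have hm' : v'.maximalIdeal.asIdeal.IsMaximal := v'.maximalIdeal.isMaximal
    have hrn : Ideal.relNorm (𝓞 k) Q = v'.maximalIdeal.asIdeal ^ Q.inertiaDeg (𝓞 k) :=
      Ideal.relNorm_eq_pow_of_isMaximal Q v'.maximalIdeal.asIdeal
    have hmult : ∀ w : FinitePlace L, multiplicity w.maximalIdeal.asIdeal Q =
        if w = u then 1 else 0 := by
      intro w
      split_ifs with h
      · rw [h, hu]
        exact multiplicity_self
      · apply multiplicity_eq_zero.2
        intro hdvd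
        have h3 : Q ≤ w.maximalIdeal.asIdeal := Ideal.dvd_iff_le.1 hdvd
        have h4 : Q = w.maximalIdeal.asIdeal := hQm.eq_of_le w.maximalIdeal.isPrime.ne_top h3
        apply h
        rw [← FinitePlace.maximalIdeal_inj]
        apply HeightOneSpectrum.ext
        rw [hu, h4]
    by_cases hvv : v' = v
    · subst hvv
      have hu' : u ∈ S := (hS u).2 hv'
      rw [hrn]
      have e1 : multiplicity v'.maximalIdeal.asIdeal
          (v'.maximalIdeal.asIdeal ^ Q.inertiaDeg (𝓞 k)) = Q.inertiaDeg (𝓞 k) := by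
        exact multiplicity_pow_self hpv.ne_zero hpv.not_isUnit _
      rw [e1]
      have e2 : ∏ w ∈ S, (qw w) ^ multiplicity w.maximalIdeal.asIdeal Q = qw u := by
        have : ∀ w ∈ S, (qw w) ^ multiplicity w.maximalIdeal.asIdeal Q =
            if w = u then qw w else 1 := by
          intro w _
          rw [hmult w]
          split_ifs <;> simp
        rw [Finset.prod_congr rfl this, Finset.prod_ite_eq' S u, if_pos hu']
      rw [e2]
      unfold qw
      rw [hu]
      have e3 := Ideal.absNorm_relNorm (R := 𝓞 k) (I := Q)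
      rw [hrn, map_pow] at e3
      exact e3
    · have hu' : u ∉ S := by
        intro h
        exact hvv (Pool.Agent.Helper56.Ru.above_inj hv' ((hS u).1 h))
      have e2 : ∏ w ∈ S, (qw w) ^ multiplicity w.maximalIdeal.asIdeal Q = 1 := by
        apply Finset.prod_eq_one
        intro w hw
        rw [hmult w, if_neg (fun h => hu' (by rw [h] at hw; exact hw)), pow_zero]
      rw [e2, hrn]
      have e1 : multiplicity v.maximalIdeal.asIdeal
          (v'.maximalIdeal.asIdeal ^ Q.inertiaDeg (𝓞 k)) = 0 := by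
        apply multiplicity_eq_zero.2
        intro hdvd
        have h3 := hpv.dvd_of_dvd_pow hdvd
        have h4 : v'.maximalIdeal.asIdeal ≤ v.maximalIdeal.asIdeal := Ideal.dvd_iff_le.1 h3
        have h5 := hm'.eq_of_le v.maximalIdeal.isPrime.ne_top h4
        apply hvv
        rw [← FinitePlace.maximalIdeal_inj]
        exact HeightOneSpectrum.ext h5
      rw [e1, pow_zero]

theorem plNorm_int (v : FinitePlace k) (S : Finset (FinitePlace L))
    (hS : ∀ w, w ∈ S ↔ Above v w) (y : 𝓞 L) (hy : y ≠ 0) :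
    v (Algebra.norm k (y : L)) = ∏ w ∈ S, w (y : L) := by
  have h1 := relNorm_key v S hS (Ideal.span {y}) (by simpa using hy)
  rw [Ideal.relNorm_singleton] at h1
  have hn0 : Algebra.intNorm (𝓞 k) (𝓞 L) y ≠ 0 := by
    rw [Algebra.intNorm_ne_zero]; exact hy
  have h2 := FinitePlace.apply_mul_absNorm_pow_eq_one v hn0
  have h3 : ∀ w : FinitePlace L, w (y : L) *
      (qw w : ℝ) ^ multiplicity w.maximalIdeal.asIdeal (Ideal.span {y}) = 1 := fun w =>
    FinitePlace.apply_mul_absNorm_pow_eq_one w hy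
  have h4 : (∏ w ∈ S, w (y : L)) *
      ∏ w ∈ S, (qw w : ℝ) ^ multiplicity w.maximalIdeal.asIdeal (Ideal.span {y}) = 1 := by
    rw [← Finset.prod_mul_distrib]
    exact Finset.prod_eq_one fun w _ => h3 w
  have h5 : ((qw v : ℝ)) ^ multiplicity v.maximalIdeal.asIdeal
      (Ideal.span {Algebra.intNorm (𝓞 k) (𝓞 L) y}) =
      ∏ w ∈ S, (qw w : ℝ) ^ multiplicity w.maximalIdeal.asIdeal (Ideal.span {y}) := by
    exact_mod_cast h1
  have h6 : ((Algebra.intNorm (𝓞 k) (𝓞 L) y : 𝓞 k) : k) = Algebra.norm k (y : L) :=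
    Algebra.algebraMap_intNorm (A := 𝓞 k) (K := k) (L := L) (B := 𝓞 L) y
  rw [← h6]
  have h7 : v ((Algebra.intNorm (𝓞 k) (𝓞 L) y : 𝓞 k) : k) *
      (qw v : ℝ) ^ multiplicity v.maximalIdeal.asIdeal
      (Ideal.span {Algebra.intNorm (𝓞 k) (𝓞 L) y}) = 1 := h2
  rw [h5] at h7
  have h8 : (∏ w ∈ S, (qw w : ℝ) ^ multiplicity w.maximalIdeal.asIdeal (Ideal.span {y})) ≠ 0 := by
    intro h0
    rw [h0, mul_zero] at h7
    exact zero_ne_one h7
  exact mul_right_cancel₀ h8 (h7.trans h4.symm)

end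

theorem plNormTry : PlNorm := by
  intro k _ _ L _ _ _ v y hy
  classical
  have hfin := ((Pool.Agent.Helper7.Ru.plAbove k L).1 v).1
  set S := hfin.toFinset with hSdef
  have hS : ∀ w, w ∈ S ↔ Above v w := by
    intro w; simp [hSdef]
  have h1 : ∏ᶠ (w : FinitePlace L) (_ : Above v w), w y = ∏ w ∈ S, w y := by
    exact finprod_mem_eq_finite_toFinset_prod (fun w : FinitePlace L => w y) hfin
  rw [h1]
  obtain ⟨a, b, hb, rfl⟩ := IsFractionRing.div_surjective (A := 𝓞 L) y
  have hb0 : b ≠ 0 := nonZeroDivisors.ne_zero hb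
  have ha0 : a ≠ 0 := by
    rintro rfl
    simp at hy
  have ha := plNorm_int v S hS a ha0
  have hb' := plNorm_int v S hS b hb0
  have hbL : (algebraMap (𝓞 L) L b) ≠ 0 := by
    simpa using hb0
  have hnb : Algebra.norm k (algebraMap (𝓞 L) L b) ≠ 0 := Algebra.norm_ne_zero_iff.2 hbL
  have hvb : v (Algebra.norm k (algebraMap (𝓞 L) L b)) ≠ 0 := (FinitePlace.pos_iff.2 hnb).ne'
  apply mul_right_cancel₀ hvb
  have e1 : v (Algebra.norm k (algebraMap (𝓞 L) L a / algebraMap (𝓞 L) L b)) *
      v (Algebra.norm k (algebraMap (𝓞 L) L b)) = v (Algebra.norm k (algebraMap (𝓞 L) L a)) := by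
    rw [← map_mul, ← map_mul, div_mul_cancel₀ _ hbL]
  have hb'' : v (Algebra.norm k (algebraMap (𝓞 L) L b)) =
      ∏ w ∈ S, w (algebraMap (𝓞 L) L b) := hb'
  have ha'' : v (Algebra.norm k (algebraMap (𝓞 L) L a)) =
      ∏ w ∈ S, w (algebraMap (𝓞 L) L a) := ha
  rw [e1, hb'', ha'', ← Finset.prod_mul_distrib]
  apply Finset.prod_congr rfl
  intro w _
  rw [← map_mul, div_mul_cancel₀ _ hbL]

end Pool.Agent.Helper92.Ru
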