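import Pool.Agent.Helper92.Ru.DefsS
import Pool.Agent.Helper92.Ru.DefsR
import Pool.Agent.Helper92.Ru.GoalsS

/-!
# Definitions for the approximation part (HT)
-/

set_option autoImplicit false

open NumberField MvPolynomial

namespace Pool.Agent.Helper92.Ru

/-- multihomogeneous of multidegree `r` (blocks `Fin m`, variables of a block indexed by `ι`) -/
def MHr {A : Type} [CommRing A] {m : ℕ} {ι : Type} [Fintype ι] (r : Fin m → ℕ)
    (f : MvPolynomial (Fin m × ι) A) : Prop :=
  ∀ e ∈ f.support, ∀ h, ∑ i, e (h, i) = r h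

/-- linear substitution: `subM M f (Y) = f (M Y)` -/
noncomputable def subM {A : Type} [CommRing A] {m : ℕ} {ι : Type} [Fintype ι]
    (M : Fin m → Matrix ι ι A) : MvPolynomial (Fin m × ι) A →ₐ[A] MvPolynomial (Fin m × ι) A :=
  aeval (fun p => ∑ j, C (M p.1 p.2 j) * X (p.1, j))

/-- the exponents of multidegree `r`, as functions -/
def mons {m : ℕ} (ι : Type) [Fintype ι] [DecidableEq ι] (r : Fin m → ℕ) :
    Finset (Fin m → ι → ℕ) :=
  Fintype.piFinset (fun h => Finset.piAntidiag (Finset.univ : Finset ι) (r h))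

/-- the exponent `e` is `ε`-balanced -/
def GoodE {m : ℕ} {ι : Type} [Fintype ι] (r : Fin m → ℕ) (ε : ℝ) (e : Fin m × ι →₀ ℕ) : Prop :=
  ∀ i, |∑ h, (e (h, i) : ℝ) / (r h : ℝ) - (m : ℝ) / (Fintype.card ι : ℝ)| ≤ m * ε

/-- coordinate change making the linear form `a h` the variable `X (h, l h)` -/
noncomputable def PsiA {k : Type} [Field k] {m : ℕ} {ι : Type} [Fintype ι] [DecidableEq ι]
    (a : Fin m → ι → k) (l : Fin m → ι) :
    MvPolynomial (Fin m × ι) k →ₐ[k] MvPolynomial (Fin m × ι) k :=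
  aeval (fun p => if p.2 = l p.1 then
      C ((a p.1 (l p.1))⁻¹) * (X p - ∑ i ∈ Finset.univ.erase (l p.1), C (a p.1 i) * X (p.1, i))
    else X p)

/-- `f` has index at least `θ` along the product of the hyperplanes `a h = 0` -/
def IndA {k : Type} [Field k] {m : ℕ} {ι : Type} [Fintype ι] [DecidableEq ι] (r : Fin m → ℕ)
    (a : Fin m → ι → k) (l : Fin m → ι) (θ : ℝ) (f : MvPolynomial (Fin m × ι) k) : Prop :=
  ∀ e ∈ (PsiA a l f).support, θ ≤ ∑ h, (e (h, l h) : ℝ) / (r h : ℝ)

end Pool.Agent.Helper92.Ru
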