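import Mathlib

/-!
# S-integral points, normalised absolute values, twisted heights

`SP k T` is the (finite) type of places of `S` = all infinite places together with the finite
places in `T`; `nS v x = ‖x‖_v` is normalised, so that the product formula holds.
-/

set_option autoImplicit false

open NumberField

namespace Pool.Agent.Helper92.Ru

/-- the places of `S` -/
abbrev SP (k : Type) [Field k] [NumberField k] (T : Finset (FinitePlace k)) : Type :=
  InfinitePlace k ⊕ {w : FinitePlace k // w ∈ T}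

variable {k : Type} [Field k] [NumberField k]

/-- normalised absolute value at a place of `S` -/
noncomputable def nS {T : Finset (FinitePlace k)} (v : SP k T) (x : k) : ℝ :=
  match v with
  | Sum.inl v => v x ^ v.mult
  | Sum.inr w => w.1 x

/-- `x` is an `S`-integer -/
def SInt (T : Finset (FinitePlace k)) (x : k) : Prop := ∀ w : FinitePlace k, w ∉ T → w x ≤ 1

section basic

variable {T : Finset (FinitePlace k)}

@[simp] theorem nS_inl (v : InfinitePlace k) (x : k) :
    nS (T := T) (Sum.inl v) x = v x ^ v.mult := rfl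

@[simp] theorem nS_inr (w : {w : FinitePlace k // w ∈ T}) (x : k) :
    nS (T := T) (Sum.inr w) x = w.1 x := rfl

theorem nS_nonneg (v : SP k T) (x : k) : 0 ≤ nS v x := by
  rcases v with v | w
  · exact pow_nonneg (apply_nonneg v x) _
  · exact apply_nonneg w.1 x

@[simp] theorem nS_zero (v : SP k T) : nS v 0 = 0 := by
  rcases v with v | w
  · simp [nS, v.mult_pos.ne']
  · simp [nS]

@[simp] theorem nS_one (v : SP k T) : nS v 1 = 1 := by
  rcases v with v | w <;> simp [nS]

theorem nS_mul (v : SP k T) (x y : k) : nS v (x * y) = nS v x * nS v y := by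
  rcases v with v | w
  · simp [nS, mul_pow]
  · simp [nS]

theorem nS_neg (v : SP k T) (x : k) : nS v (-x) = nS v x := by
  rcases v with v | w
  · show v (-x) ^ v.mult = v x ^ v.mult
    rw [show v (-x) = v x from v.1.map_neg x]
  · show w.1 (-x) = w.1 x
    exact map_neg_eq_map w.1 x

theorem nS_pos (v : SP k T) {x : k} (hx : x ≠ 0) : 0 < nS v x := by
  rcases v with v | w
  · exact pow_pos (v.pos_iff.2 hx) _
  · exact FinitePlace.pos_iff.2 hx

theorem nS_eq_zero (v : SP k T) {x : k} : nS v x = 0 ↔ x = 0 := by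
  constructor
  · intro h
    by_contra hx
    exact (nS_pos v hx).ne' h
  · rintro rfl; simp

theorem nS_pow (v : SP k T) (x : k) (n : ℕ) : nS v (x ^ n) = nS v x ^ n := by
  induction n with
  | zero => simp
  | succ n ih => rw [pow_succ, nS_mul, ih, pow_succ]

theorem nS_prod {α : Type} (v : SP k T) (s : Finset α) (f : α → k) :
    nS v (∏ i ∈ s, f i) = ∏ i ∈ s, nS v (f i) := by
  classical
  induction s using Finset.induction_on with
  | empty => simp
  | insert a s ha ih => rw [Finset.prod_insert ha, nS_mul, ih, Finset.prod_insert ha]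

theorem nS_inv (v : SP k T) (x : k) : nS v x⁻¹ = (nS v x)⁻¹ := by
  by_cases hx : x = 0
  · simp [hx]
  · have h : nS v x * nS v x⁻¹ = 1 := by rw [← nS_mul, mul_inv_cancel₀ hx, nS_one]
    exact eq_inv_of_mul_eq_one_right h

theorem nS_div (v : SP k T) (x y : k) : nS v (x / y) = nS v x / nS v y := by
  rw [div_eq_mul_inv, nS_mul, nS_inv, div_eq_mul_inv]

/-- `‖Σ a_j‖_v ≤ (#s)^2 max ‖a_j‖_v` -/
theorem nS_sum_le {α : Type} (v : SP k T) (s : Finset α) (f : α → k) (b : ℝ)
    (hb : ∀ i ∈ s, nS v (f i) ≤ b) : nS v (∑ i ∈ s, f i) ≤ (s.card : ℝ) ^ 2 * b := by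
  classical
  rcases s.eq_empty_or_nonempty with rfl | hs
  · simp
  have hb0 : 0 ≤ b := by
    obtain ⟨i, hi⟩ := hs
    exact (nS_nonneg v _).trans (hb i hi)
  have hc : (1 : ℝ) ≤ s.card := by exact_mod_cast hs.card_pos
  rcases v with v | w
  · have hb' : ∀ i ∈ s, v (f i) ^ v.mult ≤ b := hb
    have h1 : v (∑ i ∈ s, f i) ≤ ∑ i ∈ s, v (f i) := by
      exact v.1.sum_le s f
    have hm : v.mult = 1 ∨ v.mult = 2 := by
      unfold InfinitePlace.mult; split_ifs <;> simp
    show v (∑ i ∈ s, f i) ^ v.mult ≤ _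
    rcases hm with hm | hm
    · rw [hm] at hb' ⊢
      simp only [pow_one] at hb' ⊢
      calc v (∑ i ∈ s, f i) ≤ ∑ i ∈ s, v (f i) := h1
        _ ≤ ∑ i ∈ s, b := Finset.sum_le_sum hb'
        _ = s.card * b := by simp
        _ ≤ (s.card : ℝ) ^ 2 * b := by
            apply mul_le_mul_of_nonneg_right _ hb0
            nlinarith
    · rw [hm] at hb' ⊢
      have h2 : ∀ i ∈ s, v (f i) ≤ Real.sqrt b := fun i hi => by
        apply Real.le_sqrt_of_sq_le (hb' i hi)
      have h3 : v (∑ i ∈ s, f i) ≤ s.card * Real.sqrt b := by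
        calc v (∑ i ∈ s, f i) ≤ ∑ i ∈ s, v (f i) := h1
          _ ≤ ∑ i ∈ s, Real.sqrt b := Finset.sum_le_sum h2
          _ = s.card * Real.sqrt b := by simp
      calc v (∑ i ∈ s, f i) ^ 2 ≤ (s.card * Real.sqrt b) ^ 2 :=
            pow_le_pow_left₀ (apply_nonneg v _) h3 2
        _ = (s.card : ℝ) ^ 2 * b := by rw [mul_pow, Real.sq_sqrt hb0]
  · have hb' : ∀ i ∈ s, w.1 (f i) ≤ b := hb
    show w.1 (∑ i ∈ s, f i) ≤ _
    have h1 : w.1 (∑ i ∈ s, f i) ≤ b := by
      clear hs hc hb
      induction s using Finset.induction_on with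
      | empty => simpa using hb0
      | insert a s ha ih =>
        rw [Finset.sum_insert ha]
        refine (FinitePlace.add_le w.1 _ _).trans (max_le (hb' a (by simp)) ?_)
        exact ih (fun i hi => hb' i (by simp [hi]))
    calc w.1 (∑ i ∈ s, f i) ≤ b := h1
      _ = 1 * b := (one_mul b).symm
      _ ≤ (s.card : ℝ) ^ 2 * b := by
          apply mul_le_mul_of_nonneg_right _ hb0
          nlinarith

theorem nS_add_le (v : SP k T) (x y : k) (b : ℝ) (hx : nS v x ≤ b) (hy : nS v y ≤ b) :
    nS v (x + y) ≤ 4 * b := by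
  have h := nS_sum_le v Finset.univ ![x, y] b (by
    intro i _
    fin_cases i
    · exact hx
    · exact hy)
  simp at h
  linarith

theorem SInt.zero : SInt T (0 : k) := fun w _ => by simp

theorem SInt.one : SInt T (1 : k) := fun w _ => by simp

theorem SInt.add {x y : k} (hx : SInt T x) (hy : SInt T y) : SInt T (x + y) := fun w hw =>
  (FinitePlace.add_le w x y).trans (max_le (hx w hw) (hy w hw))

theorem SInt.mul {x y : k} (hx : SInt T x) (hy : SInt T y) : SInt T (x * y) := fun w hw => by
  rw [map_mul]; exact mul_le_one₀ (hx w hw) (apply_nonneg w y) (hy w hw)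

theorem SInt.neg {x : k} (hx : SInt T x) : SInt T (-x) := fun w hw => by
  rw [map_neg_eq_map]; exact hx w hw

theorem SInt.sub {x y : k} (hx : SInt T x) (hy : SInt T y) : SInt T (x - y) := by
  rw [sub_eq_add_neg]; exact hx.add hy.neg

theorem SInt.sum {α : Type} {s : Finset α} {f : α → k} (h : ∀ i ∈ s, SInt T (f i)) :
    SInt T (∑ i ∈ s, f i) := by
  classical
  induction s using Finset.induction_on with
  | empty => simpa using SInt.zero
  | insert a s ha ih =>
    rw [Finset.sum_insert ha]
    exact (h a (by simp)).add (ih fun i hi => h i (by simp [hi]))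

theorem SInt.prod {α : Type} {s : Finset α} {f : α → k} (h : ∀ i ∈ s, SInt T (f i)) :
    SInt T (∏ i ∈ s, f i) := by
  classical
  induction s using Finset.induction_on with
  | empty => simpa using SInt.one
  | insert a s ha ih =>
    rw [Finset.prod_insert ha]
    exact (h a (by simp)).mul (ih fun i hi => h i (by simp [hi]))

theorem SInt.pow {x : k} (hx : SInt T x) (n : ℕ) : SInt T (x ^ n) := by
  induction n with
  | zero => simpa using SInt.one
  | succ n ih => rw [pow_succ]; exact ih.mul hx

theorem SInt.of_int (x : 𝓞 k) : SInt T (x : k) := fun w _ => by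
  rw [← FinitePlace.norm_embedding_eq]
  exact FinitePlace.norm_le_one (K := k) w.maximalIdeal x

theorem SInt.det {ι : Type} [Fintype ι] [DecidableEq ι] {A : Matrix ι ι k}
    (h : ∀ i j, SInt T (A i j)) : SInt T A.det := by
  rw [Matrix.det_apply]
  refine SInt.sum fun σ _ => ?_
  have h1 : SInt T (∏ i, A (σ i) i) := SInt.prod fun i _ => h _ _
  rcases Int.units_eq_one_or (Equiv.Perm.sign σ) with hs | hs
  · rw [hs]; simpa using h1
  · rw [hs]; simpa using h1.neg

/-- product formula: a nonzero `S`-integer has `∏_{v ∈ S} ‖a‖_v ≥ 1` -/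
theorem one_le_prod_nS {a : k} (ha : SInt T a) (h0 : a ≠ 0) : 1 ≤ ∏ v : SP k T, nS v a := by
  classical
  have hpf := prod_abs_eq_one h0
  rw [Fintype.prod_sum_type]
  simp only [nS_inl, nS_inr]
  have hfin : (Function.mulSupport fun w : FinitePlace k => w a).Finite :=
    FinitePlace.hasFiniteMulSupport h0
  have hsub : ∏ᶠ w : FinitePlace k, w a ≤ ∏ w : {w : FinitePlace k // w ∈ T}, w.1 a := by
    have h1 : ∏ᶠ w : FinitePlace k, w a = ∏ w ∈ (hfin.toFinset ∪ T), w a := by
      apply finprod_eq_prod_of_mulSupport_subset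
      intro w hw
      simp only [Finset.coe_union, Set.Finite.coe_toFinset, Set.mem_union]
      exact Or.inl hw
    rw [h1]
    have h2 : ∏ w ∈ (hfin.toFinset ∪ T), w a =
        (∏ w ∈ (hfin.toFinset ∪ T) \ T, w a) * ∏ w ∈ T, w a := by
      rw [Finset.prod_sdiff Finset.subset_union_right]
    rw [h2]
    have h3 : ∏ w ∈ (hfin.toFinset ∪ T) \ T, w a ≤ 1 := by
      apply Finset.prod_le_one
      · intro w _; exact apply_nonneg w a
      · intro w hw; exact ha w (Finset.mem_sdiff.1 hw).2
    have h4 : ∏ w : {w : FinitePlace k // w ∈ T}, w.1 a = ∏ w ∈ T, w a := by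
      exact Finset.prod_coe_sort T (fun w => w a)
    rw [h4]
    calc _ ≤ 1 * ∏ w ∈ T, w a := by
          apply mul_le_mul_of_nonneg_right h3
          exact Finset.prod_nonneg fun w _ => apply_nonneg w a
      _ = _ := one_mul _
  calc (1 : ℝ) = (∏ w : InfinitePlace k, w a ^ w.mult) * ∏ᶠ w : FinitePlace k, w a := hpf.symm
    _ ≤ _ := by
      apply mul_le_mul_of_nonneg_left hsub
      exact Finset.prod_nonneg fun w _ => pow_nonneg (apply_nonneg w a) _

end basic

/-- twisted height `HH_w(x) = ∏_{v ∈ S} max_i ‖(A_v x)_i‖_v / w_{v,i}` -/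
noncomputable def HH {T : Finset (FinitePlace k)} {ι : Type} [Fintype ι]
    (A : SP k T → Matrix ι ι k) (w : SP k T → ι → ℝ) (x : ι → k) : ℝ :=
  ∏ v, ⨆ i, nS v ((A v).mulVec x i) / w v i

/-- all coordinates are `S`-integers -/
def SIntV {ι : Type} (T : Finset (FinitePlace k)) (x : ι → k) : Prop := ∀ i, SInt T (x i)

/-- the points of the `S`-integral parallelepiped with sides `w` -/
def InBox {T : Finset (FinitePlace k)} {ι : Type} [Fintype ι]
    (A : SP k T → Matrix ι ι k) (w : SP k T → ι → ℝ) (x : ι → k) : Prop :=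
  SIntV T x ∧ ∀ v i, nS v ((A v).mulVec x i) ≤ w v i

/-- greedy approximate successive minima: independent `S`-integral points `x_0,x_1,...` with
`HH(x_j) ≤ 2 HH(y)` for all `S`-integral `y ∉ span(x_0..x_{j-1})` -/
def Greedy {T : Finset (FinitePlace k)} {ι : Type} [Fintype ι]
    (A : SP k T → Matrix ι ι k) (w : SP k T → ι → ℝ) (x : Fin (Fintype.card ι) → ι → k) : Prop :=
  LinearIndependent k x ∧ (∀ j, SIntV T (x j)) ∧
    ∀ j, ∀ y : ι → k, SIntV T y →
      y ∉ Submodule.span k (x '' {j' | j' < j}) → HH A w (x j) ≤ 2 * HH A w y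

/-- the norm `q_w = #(O_k/p_w)` of a finite place -/
noncomputable def qw (w : FinitePlace k) : ℕ := Ideal.absNorm w.maximalIdeal.asIdeal

/-- the weights `Q^{e_{v,i}}` -/
noncomputable def wQ {T : Finset (FinitePlace k)} {ι : Type} (Q : ℝ) (e : SP k T → ι → ℝ) :
    SP k T → ι → ℝ := fun v i => Q ^ e v i

/-- `W` is spanned by its `S`-integral points in the box `w` -/
def SpannedBy {T : Finset (FinitePlace k)} {ι : Type} [Fintype ι]
    (A : SP k T → Matrix ι ι k) (w : SP k T → ι → ℝ) (W : Submodule k (ι → k)) : Prop :=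
  W ≤ Submodule.span k {x | x ∈ W ∧ InBox A w x}

/-- `W` is spanned by its `S`-integral points with `HH_w ≤ R`, and all `S`-integral points
outside `W` have `HH_w ≥ R G` -/
def Gap {T : Finset (FinitePlace k)} {ι : Type} [Fintype ι]
    (A : SP k T → Matrix ι ι k) (w : SP k T → ι → ℝ) (R G : ℝ) (W : Submodule k (ι → k)) :
    Prop :=
  W ≤ Submodule.span k {x | x ∈ W ∧ SIntV T x ∧ HH A w x ≤ R} ∧
    ∀ y : ι → k, SIntV T y → y ∉ W → R * G ≤ HH A w y

/-- index type of the `r`-th compound -/
abbrev JJ (r N : ℕ) : Type := {s : Finset (Fin N) // s.card = r}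

/-- the increasing enumeration of `I` -/
def JJ.emb {r N : ℕ} (I : JJ r N) : Fin r ↪o Fin N := I.1.orderEmbOfFin I.2

/-- compound matrix -/
noncomputable def cmpd (r : ℕ) {N : ℕ} {k : Type} [Field k] (A : Matrix (Fin N) (Fin N) k) :
    Matrix (JJ r N) (JJ r N) k :=
  Matrix.of fun I K => (A.submatrix I.emb K.emb).det

/-- wedge product of `r` vectors, as the vector of `r × r` minors -/
noncomputable def wd {r N : ℕ} {k : Type} [Field k] (x : Fin r → Fin N → k) : JJ r N → k :=
  fun I => (Matrix.of fun a b => x b (I.emb a)).det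

/-- the subspace `W^` of `Λ^r`: spanned by the wedges with at least one factor in `W` -/
noncomputable def Wwd (r : ℕ) {N : ℕ} {k : Type} [Field k] (W : Submodule k (Fin N → k)) :
    Submodule k (JJ r N → k) :=
  Submodule.span k {z | ∃ y : Fin r → Fin N → k, (∃ b, y b ∈ W) ∧ z = wd y}

end Pool.Agent.Helper92.Ru
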