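import Mathlib

/-!
# Definitions for the algebraic / combinatorial part (part W) of MP_d1d051_nt

`BB k d n` is the polynomial ring over `k` in `d` blocks of `n+1` variables.
-/

set_option autoImplicit false

open MvPolynomial

namespace Pool.Agent.Helper92.Ru

/-- polynomial ring in `d` blocks of `n+1` variables -/
abbrev BB (k : Type) [Field k] (d n : ℕ) := MvPolynomial (Fin d × Fin (n + 1)) k

/-- `f` is multihomogeneous of degree `m` in every block -/
def MHom {k : Type} [Field k] {d n : ℕ} (m : ℕ) (f : BB k d n) : Prop :=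
  ∀ e ∈ f.support, ∀ j : Fin d, ∑ i : Fin (n + 1), e (j, i) = m

/-- permute the blocks -/
noncomputable def permB (k : Type) [Field k] (d n : ℕ) (π : Equiv.Perm (Fin d)) :
    BB k d n →ₐ[k] BB k d n :=
  rename (fun p : Fin d × Fin (n + 1) => (π p.1, p.2))

theorem MHom.add {k : Type} [Field k] {d n m : ℕ} {f g : BB k d n} (hf : MHom m f)
    (hg : MHom m g) : MHom m (f + g) := by
  classical
  intro e he j
  rcases Finset.mem_union.1 (MvPolynomial.support_add he) with h | h
  · exact hf e h j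
  · exact hg e h j

theorem MHom.smul {k : Type} [Field k] {d n m : ℕ} {f : BB k d n} (c : k) (hf : MHom m f) :
    MHom m (c • f) := by
  classical
  intro e he j
  exact hf e (MvPolynomial.support_smul he) j

/-- `R_m`: the block-symmetric forms of multidegree `(m,...,m)` -/
noncomputable def Rm (k : Type) [Field k] (d n m : ℕ) : Submodule k (BB k d n) where
  carrier := {f | MHom m f ∧ ∀ π : Equiv.Perm (Fin d), permB k d n π f = f}
  add_mem' := by
    rintro f g ⟨h1, h2⟩ ⟨h3, h4⟩
    exact ⟨h1.add h3, fun π => by rw [map_add, h2, h4]⟩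
  zero_mem' := by
    refine ⟨?_, fun π => map_zero _⟩
    intro e he
    simp at he
  smul_mem' := by
    rintro c f ⟨h1, h2⟩
    exact ⟨h1.smul c, fun π => by rw [map_smul, h2]⟩

/-- the norm form `N(ℓ_i) = ∏_j ℓ_i(T_j)` of the linear form with coefficients `a` -/
noncomputable def Nl {k : Type} [Field k] (d : ℕ) {n : ℕ} (a : Fin (n + 1) → k) : BB k d n :=
  ∏ j : Fin d, ∑ t : Fin (n + 1), C (a t) * X (j, t)

/-- general position -/
def GP {k : Type} [Field k] {n q : ℕ} (a : Fin q → Fin (n + 1) → k) : Prop :=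
  ∀ s : Finset (Fin q), s.card ≤ n + 1 → LinearIndependent k (fun i : s => a i)

/-- the filtration step `F_λ^t(m)`: span of the products `ℓ^α g`, `g ∈ R_{m-|α|}`, `⟨α,λ⟩ ≥ t` -/
noncomputable def Fil {k : Type} [Field k] (d : ℕ) {n q : ℕ} (a : Fin q → Fin (n + 1) → k)
    (lam : Fin q → ℕ) (t m : ℕ) : Submodule k (BB k d n) :=
  Submodule.span k {f | ∃ (α : Fin q → ℕ) (g : BB k d n), ∑ i, α i ≤ m ∧
    t ≤ ∑ i, α i * lam i ∧ g ∈ Rm k d n (m - ∑ i, α i) ∧
    f = (∏ i, Nl d (a i) ^ α i) * g}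

/-- `S_m(λ) = Σ_{t ≥ 1} dim φ(F_λ^t(m))`; the terms with `t > m Σ λ_i` vanish -/
noncomputable def Ssum {k : Type} [Field k] (d : ℕ) {n q : ℕ} (a : Fin q → Fin (n + 1) → k)
    {V : Type} [AddCommGroup V] [Module k V] (φ : BB k d n →ₗ[k] V) (lam : Fin q → ℕ)
    (m : ℕ) : ℕ :=
  ∑ t ∈ Finset.Icc 1 (m * ∑ i, lam i), Module.finrank k ((Fil d a lam t m).map φ)

end Pool.Agent.Helper92.Ru
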