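import Pool.Agent.Helper92.Ru.DefsS
import Pool.Agent.Helper92.Ru.GoalsS
import Pool.Agent.Helper92.Ru.DefsW
import Pool.Agent.Helper92.Ru.GoalsW

/-!
# Definitions for the Diophantine part and for the translation to S18577
-/

set_option autoImplicit false

open NumberField MvPolynomial

namespace Pool.Agent.Helper92.Ru

/-- data attached to a point: evaluation, local sizes, content ideal, local proximities -/
structure Pt (k : Type) [Field k] [NumberField k] (T : Finset (FinitePlace k)) (d n q : ℕ) where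
  /-- evaluation at the conjugates -/
  E : BB k d n →ₐ[k] AlgebraicClosure k
  /-- local sizes in `S` -/
  X : SP k T → ℝ
  /-- exponents of the local sizes outside `S` -/
  z : FinitePlace k → ℤ
  /-- local proximities -/
  lam : SP k T → Fin q → ℝ

variable {k : Type} [Field k] [NumberField k] {T : Finset (FinitePlace k)} {d n q : ℕ}

/-- the height of a point -/
noncomputable def Pt.H (P : Pt k T d n q) : ℝ :=
  (∏ v, P.X v) * ∏ᶠ w : FinitePlace k, (qw w : ℝ) ^ P.z w

/-- total proximity -/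
noncomputable def Pt.tot (P : Pt k T d n q) : ℝ := ∑ v, ∑ i, P.lam v i

/-- the properties of the data of a point, with constants `C`, `Cf` independent of the point -/
structure PtOK (a : Fin q → Fin (n + 1) → k) (C : ℝ) (Cf : ℕ → BB k d n → ℝ)
    (P : Pt k T d n q) : Prop where
  X_pos : ∀ v, 0 < P.X v
  z_fin : P.z.support.Finite
  z_T : ∀ w ∈ T, P.z w = 0
  H_one : 1 ≤ P.H
  val : ∀ (m : ℕ), ∀ f ∈ Rm k d n m, ∃ y : k, P.E f = algebraMap k _ y ∧
    (∀ v, nS v y ≤ Cf m f * P.X v ^ m) ∧
    ((∀ e, ∃ b : 𝓞 k, coeff e f = (b : k)) → ∀ w : FinitePlace k, w ∉ T →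
      w y ≤ (qw w : ℝ) ^ ((m : ℤ) * P.z w))
  norm : ∀ i, ∃ y : k, P.E (Nl d (a i)) = algebraMap k _ y ∧ y ≠ 0 ∧
    ∀ v, nS v y ≤ C * P.X v * Real.exp (-P.lam v i)
  lam_lb : ∀ v i, -C ≤ P.lam v i
  lam_few : ∀ v, ∀ s : Finset (Fin q), (∀ i ∈ s, C < P.lam v i) → s.card ≤ d * n
  lam_sum : ∀ i, ∑ v, P.lam v i ≤ Real.log P.H + C

/-- the polynomials vanishing at all points of `𝒬` for all orderings of the conjugates -/
def JJid (𝒬 : Set (Pt k T d n q)) : Ideal (BB k d n) where
  carrier := {f | ∀ P ∈ 𝒬, ∀ π : Equiv.Perm (Fin d), P.E (permB k d n π f) = 0}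
  add_mem' := by
    intro f g hf hg P hP π
    rw [map_add, map_add, hf P hP π, hg P hP π, add_zero]
  zero_mem' := by
    intro P _ π
    rw [map_zero, map_zero]
  smul_mem' := by
    intro c f hf P hP π
    rw [smul_eq_mul, map_mul, map_mul, hf P hP π, mul_zero]

/-- `𝒬` is bad for the constant `κ`: `tot - κ log H` is unbounded above on `𝒬` -/
def Bad (κ : ℝ) (𝒬 : Set (Pt k T d n q)) : Prop :=
  ∀ C' : ℝ, ∃ P ∈ 𝒬, κ * Real.log P.H + C' < P.tot

/-- linear algebra data at level `m` for the matrix of weights `mu` and the ideal `J` -/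
structure LinData {κ : Type} [Fintype κ] (a : Fin q → Fin (n + 1) → k) (mu : κ → Fin q → ℕ)
    (m : ℕ) (J : Ideal (BB k d n)) (N : ℕ) where
  bas : Fin N → BB k d n
  bas_mem : ∀ b, bas b ∈ Rm k d n m
  bas_int : ∀ b e, ∃ c : 𝓞 k, coeff e (bas b) = (c : k)
  bas_ind : ∀ c : Fin N → k, (∑ b, c b • bas b) ∈ J → c = 0
  A : κ → Matrix (Fin N) (Fin N) k
  A_det : ∀ v, (A v).det ≠ 0
  g : κ → Fin N → BB k d n
  t : κ → Fin N → ℕ
  g_mem : ∀ v s, g v s ∈ Fil d a (mu v) (t v s) m
  g_eq : ∀ v s, g v s - ∑ b, A v s b • bas b ∈ J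
  t_sum : ∀ v, ∑ s, t v s = Ssum d a ((Submodule.mkQ (J.restrictScalars k))) (mu v) m

section places

variable {L : Type} [Field L] [NumberField L] [Algebra k L]

/-- the finite place `w` of `L` lies above the finite place `v` of `k` -/
def Above (v : FinitePlace k) (w : FinitePlace L) : Prop :=
  ∀ y : k, (v y < 1 ↔ w (algebraMap k L y) < 1)

/-- the infinite places of `L` above `v` -/
abbrev AbI (L : Type) [Field L] [NumberField L] [Algebra k L] (v : InfinitePlace k) : Type :=
  {w : InfinitePlace L // w.comap (algebraMap k L) = v}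

noncomputable instance (v : InfinitePlace k) : Fintype (AbI L v) := Fintype.ofFinite _

/-- the embeddings of `L` above the embedding of `v` -/
abbrev AbE (L : Type) [Field L] [NumberField L] [Algebra k L] (v : InfinitePlace k) : Type :=
  {ρ : L →+* ℂ // ρ.comp (algebraMap k L) = v.embedding}

noncomputable instance (v : InfinitePlace k) : Fintype (AbE L v) := Fintype.ofFinite _

/-- `∏_{w | v} max_j ‖x_j‖_w`, `v` infinite -/
noncomputable def XInf (x : Fin (n + 1) → L) (v : InfinitePlace k) : ℝ :=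
  ∏ w : AbI L v, (⨆ j, w.1 (x j)) ^ w.1.mult

/-- `∏_{w | v} max_j ‖x_j‖_w`, `v` finite -/
noncomputable def XFin (x : Fin (n + 1) → L) (v : FinitePlace k) : ℝ :=
  ∏ᶠ (w : FinitePlace L) (_ : Above v w), ⨆ j, w (x j)

/-- local proximity at an infinite place of `L` (not multiplied by `mult`) -/
noncomputable def prI (a : Fin (n + 1) → k) (x : Fin (n + 1) → L) (w : InfinitePlace L) : ℝ :=
  Real.log ((⨆ j, w (x j)) * (⨆ j, w (algebraMap k L (a j))) /
    w (∑ j, algebraMap k L (a j) * x j))

/-- local proximity at a finite place of `L` -/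
noncomputable def prF (a : Fin (n + 1) → k) (x : Fin (n + 1) → L) (w : FinitePlace L) : ℝ :=
  Real.log ((⨆ j, w (x j)) * (⨆ j, w (algebraMap k L (a j))) /
    w (∑ j, algebraMap k L (a j) * x j))

/-- evaluation at the conjugates of `x` -/
noncomputable def evx (σ : Fin d → (L →ₐ[k] AlgebraicClosure k)) (x : Fin (n + 1) → L) :
    BB k d n →ₐ[k] AlgebraicClosure k :=
  aeval (fun p : Fin d × Fin (n + 1) => σ p.1 (x p.2))

/-- the data of the point `x` -/
noncomputable def ptOf (T : Finset (FinitePlace k)) (a : Fin q → Fin (n + 1) → k)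
    (σ : Fin d → (L →ₐ[k] AlgebraicClosure k)) (x : Fin (n + 1) → L) : Pt k T d n q where
  E := evx σ x
  X v := match v with
    | Sum.inl v => XInf x v
    | Sum.inr v => XFin x v.1
  z v := open Classical in if v ∈ T then 0 else ⌊Real.logb (qw v) (XFin x v)⌋
  lam v i := match v with
    | Sum.inl v => ∑ w : AbI L v,
        (w.1.mult : ℝ) * prI (a i) x w.1
    | Sum.inr v => ∑ᶠ (w : FinitePlace L) (_ : Above v.1 w), prF (a i) x w

end places

end Pool.Agent.Helper92.Ru
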