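import Pool.Agent.Helper92.Ru.DefsH

/-! Goals of the approximation part: auxiliary polynomial, vanishing, reduction to Roth's lemma -/

set_option autoImplicit false

open NumberField MvPolynomial

namespace Pool.Agent.Helper92.Ru

/-- H1: Chebyshev: most exponents are balanced. -/
def Cheb : Prop :=
  ∀ (m : ℕ) (ι : Type) [Fintype ι] [DecidableEq ι] [Nonempty ι] (r : Fin m → ℕ) (ε : ℝ) (i : ι),
    (∀ h, 1 ≤ r h) → 0 < ε →
    (m : ℝ) * ε ^ 2 * (((mons ι r).filter (fun J : Fin m → ι → ℕ =>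
        (m : ℝ) * ε < |∑ h, (J h i : ℝ) / (r h : ℝ) - (m : ℝ) / (Fintype.card ι : ℝ)|)).card : ℝ) ≤
      ((mons ι r).card : ℝ)

/-- H2: number of exponents. -/
def MonsCard : Prop :=
  ∀ (m : ℕ) (ι : Type) [Fintype ι] [DecidableEq ι] [Nonempty ι] (r : Fin m → ℕ),
    1 ≤ (mons ι r).card ∧ (mons ι r).card ≤ 2 ^ (Fintype.card ι * ∑ h, r h)

/-- H3: house of the coefficients of a substituted monomial. -/
def AuxCoeff : Prop :=
  ∀ (k : Type) [Field k] [NumberField k] (m : ℕ) (ι : Type) [Fintype ι] [DecidableEq ι]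
    [Nonempty ι] (M : Fin m → Matrix ι ι (𝓞 k)) (a0 : ℝ), 1 ≤ a0 →
    (∀ h i j, house (M h i j : k) ≤ a0) → ∀ J K : Fin m × ι →₀ ℕ,
      house ((coeff K (subM M (monomial J 1)) : 𝓞 k) : k) ≤
        ((Fintype.card ι : ℝ) * a0) ^ (∑ p, J p)

/-- H4: auxiliary polynomial. -/
def Aux : Prop :=
  ∀ (k : Type) [Field k] [NumberField k] (T : Finset (FinitePlace k)) (ι : Type) [Fintype ι]
    [DecidableEq ι] [Nonempty ι] (A : SP k T → Matrix ι ι k), (∀ v, (A v).det ≠ 0) →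
    ∀ ε : ℝ, 0 < ε → ∃ m0 : ℕ, ∀ m : ℕ, m0 ≤ m → ∃ C : ℝ, 1 ≤ C ∧
      ∀ r : Fin m → ℕ, (∀ h, 1 ≤ r h) →
        ∃ P : MvPolynomial (Fin m × ι) k, P ≠ 0 ∧ MHr r P ∧
          (∀ e, ∃ a : 𝓞 k, coeff e P = (a : k)) ∧
          (∀ (v : InfinitePlace k) e, v (coeff e P) ≤ C ^ (∑ h, r h)) ∧
          ∀ v : SP k T, ∀ e ∈ (subM (fun _ => (A v)⁻¹) P).support, GoodE r ε e

/-- H5: size of the coefficients after a substitution with a rank one bound. -/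
def SubstBound : Prop :=
  ∀ (k : Type) [Field k] [NumberField k] (T : Finset (FinitePlace k)) (v : SP k T) (m : ℕ)
    (ι : Type) [Fintype ι] [DecidableEq ι] [Nonempty ι] (r : Fin m → ℕ)
    (f : MvPolynomial (Fin m × ι) k) (M : Fin m → Matrix ι ι k) (b g : Fin m → ι → ℝ) (β : ℝ),
    MHr r f → (∀ h i, 0 ≤ b h i) → (∀ h i, 0 ≤ g h i) → 0 ≤ β →
    (∀ h i j, nS v (M h i j) ≤ b h i * g h j) →
    (∀ J ∈ f.support, nS v (coeff J f) * ∏ h, ∏ i, b h i ^ J (h, i) ≤ β) →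
    ∀ K, nS v (coeff K (subM M f)) ≤
      ((2 : ℝ) ^ Fintype.card ι * Fintype.card ι) ^ (2 * ∑ h, r h) * β *
        ∏ h, ∏ i, g h i ^ K (h, i)

/-- H6: vanishing of the coefficients of small index. -/
def Vanish : Prop :=
  ∀ (k : Type) [Field k] [NumberField k] (T : Finset (FinitePlace k)) (ι : Type) [Fintype ι]
    [DecidableEq ι] [Nonempty ι] (A : SP k T → Matrix ι ι k), (∀ v, (A v).det ≠ 0) →
    ∀ e : SP k T → ι → ℝ, ∑ v, ∑ i, e v i < 0 →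
    ∃ ε η : ℝ, 0 < ε ∧ 0 < η ∧ ∀ (m : ℕ) (C : ℝ), 1 ≤ m → 1 ≤ C → ∃ Q1 : ℝ, 1 ≤ Q1 ∧
      ∀ (r : Fin m → ℕ) (R : ℕ) (Q : Fin m → ℝ) (L : ℝ) (P : MvPolynomial (Fin m × ι) k),
        (∀ h, 1 ≤ r h ∧ r h ≤ R) → (∀ h, Q1 ≤ Q h) → R * Real.log Q1 ≤ L →
        (∀ h, L ≤ r h * Real.log (Q h) ∧ r h * Real.log (Q h) ≤ (1 + η) * L) →
        MHr r P → (∀ e, ∃ a : 𝓞 k, coeff e P = (a : k)) →
        (∀ (v : InfinitePlace k) e, v (coeff e P) ≤ C ^ (∑ h, r h)) →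
        (∀ v : SP k T, ∀ e ∈ (subM (fun _ => (A v)⁻¹) P).support, GoodE r ε e) →
        ∀ (B : Fin m → Matrix ι ι k) (st : Fin m → ι), (∀ h i j, SInt T (B h i j)) →
          (∀ h v i j, j ≠ st h → nS v ((A v * B h) i j) ≤ Q h ^ e v i) →
          (∀ h v i, nS v ((A v * B h) i (st h)) ≤ C) →
          ∀ K ∈ (subM B P).support, (m : ℝ) * ε ≤ ∑ h, (K (h, st h) : ℝ) / (r h : ℝ)

/-- H7: from the coordinates `B` to `IndA`. -/
def Red1 : Prop :=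
  ∀ (k : Type) [Field k] (m : ℕ) (ι : Type) [Fintype ι] [DecidableEq ι] (r : Fin m → ℕ)
    (P : MvPolynomial (Fin m × ι) k) (B : Fin m → Matrix ι ι k) (st l : Fin m → ι) (θ : ℝ),
    (∀ h, (B h).det ≠ 0) → (∀ h, (B h)⁻¹ (st h) (l h) ≠ 0) →
    (∀ K ∈ (subM B P).support, θ ≤ ∑ h, (K (h, st h) : ℝ) / (r h : ℝ)) →
    IndA r (fun h => (B h)⁻¹ (st h)) l θ P

/-- H8: elimination of all but two variables in every block. -/
def Red2 : Prop :=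
  ∀ (k : Type) [Field k] (m : ℕ) (ι : Type) [Fintype ι] [DecidableEq ι] (r : Fin m → ℕ)
    (P : MvPolynomial (Fin m × ι) k) (a : Fin m → ι → k) (l1 l2 : Fin m → ι) (θ : ℝ),
    P ≠ 0 → MHr r P → (∀ h, a h (l1 h) ≠ 0) → IndA r a l1 θ P →
    ∃ (r' : Fin m → ℕ) (P' : MvPolynomial (Fin m × ι) k), (∀ h, r' h ≤ r h) ∧ P' ≠ 0 ∧
      MHr r' P' ∧ (∀ e ∈ P'.support, ∃ e', coeff e P' = coeff e' P) ∧
      (∀ e ∈ P'.support, ∀ h i, i ≠ l1 h → i ≠ l2 h → e (h, i) = 0) ∧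
      IndA r (fun h i => if i = l1 h ∨ i = l2 h then a h i else 0) l1 θ P'

/-- H9: dehomogenisation. -/
def Red3 : Prop :=
  ∀ (k : Type) [Field k] (m : ℕ) (ι : Type) [Fintype ι] [DecidableEq ι] (r r' : Fin m → ℕ)
    (P : MvPolynomial (Fin m × ι) k) (a : Fin m → ι → k) (l1 l2 : Fin m → ι) (θ : ℝ),
    P ≠ 0 → MHr r' P → (∀ h, a h (l1 h) ≠ 0) → (∀ h, l1 h ≠ l2 h) →
    (∀ e ∈ P.support, ∀ h i, i ≠ l1 h → i ≠ l2 h → e (h, i) = 0) →
    IndA r (fun h i => if i = l1 h ∨ i = l2 h then a h i else 0) l1 θ P →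
    ∃ p : MvPolynomial (Fin m) k, p ≠ 0 ∧ (∀ h, p.degreeOf h ≤ r' h) ∧
      (∀ e ∈ p.support, ∃ e', coeff e p = coeff e' P) ∧
      IndGe r (fun h => -(a h (l2 h)) / a h (l1 h)) θ p

/-- H10: boxes are finite. -/
def BoxFin : Prop :=
  ∀ (k : Type) [Field k] [NumberField k] (T : Finset (FinitePlace k)) (ι : Type) [Fintype ι]
    [DecidableEq ι] [Nonempty ι] (A : SP k T → Matrix ι ι k), (∀ v, (A v).det ≠ 0) →
    ∀ w : SP k T → ι → ℝ, Set.Finite {x : ι → k | InBox A w x}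

/-- H11: choice of two coordinates. -/
def XiPick : Prop :=
  ∀ (k : Type) [Field k] [NumberField k] (ι : Type) [Fintype ι] [DecidableEq ι] (a : ι → k),
    2 ≤ Fintype.card ι → a ≠ 0 → ∃ l1 l2 : ι, l1 ≠ l2 ∧ a l1 ≠ 0 ∧
      Height.mulHeight a ≤ Height.mulHeight₁ (-(a l2) / a l1) ^ (Fintype.card ι - 1)

/-- H12: height of a polynomial with integral coefficients. -/
def PHBound : Prop :=
  ∀ (k : Type) [Field k] [NumberField k] (σ : Type) (p : MvPolynomial σ k) (C : ℝ), 1 ≤ C →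
    (∀ e ∈ p.support, ∃ a : 𝓞 k, coeff e p = (a : k)) →
    (∀ (v : InfinitePlace k), ∀ e ∈ p.support, v (coeff e p) ≤ C) →
    PH p ≤ C ^ (Module.finrank ℚ k)

/-- H13: adapted matrix of a hyperplane spanned by points of a box. -/
def ColMat : Prop :=
  ∀ (k : Type) [Field k] [NumberField k] (T : Finset (FinitePlace k)) (ι : Type) [Fintype ι]
    [DecidableEq ι] [Nonempty ι] (A : SP k T → Matrix ι ι k) (w : SP k T → ι → ℝ)
    (W : Submodule k (ι → k)), Module.finrank k W + 1 = Fintype.card ι → SpannedBy A w W →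
    ∃ (B : Matrix ι ι k) (st i0 : ι), B.det ≠ 0 ∧ (∀ i j, SInt T (B i j)) ∧
      (∀ v i j, j ≠ st → nS v ((A v * B) i j) ≤ w v i) ∧
      (∀ i, B i st = if i = i0 then 1 else 0) ∧
      (∀ j, j ≠ st → (fun i => B i j) ∈ W) ∧
      (∀ x ∈ W, ∑ i, B⁻¹ st i * x i = 0) ∧ B⁻¹ st ≠ 0

/-- H14: the height of a hyperplane spanned by small points is large. -/
def HtLow : Prop :=
  ∀ (k : Type) [Field k] [NumberField k] (T : Finset (FinitePlace k)) (ι : Type) [Fintype ι]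
    [DecidableEq ι] [Nonempty ι] (A : SP k T → Matrix ι ι k), (∀ v, (A v).det ≠ 0) →
    2 ≤ Fintype.card ι → ∀ e : SP k T → ι → ℝ, ∑ v, ∑ i, e v i < 0 →
    ∃ (c Q1 : ℝ) (F : Set (Submodule k (ι → k))), 0 < c ∧ 1 ≤ Q1 ∧ F.Finite ∧
      ∀ W : Submodule k (ι → k), W ∉ F → Module.finrank k W + 1 = Fintype.card ι →
        ∀ Q : ℝ, Q1 ≤ Q → SpannedBy A (wQ Q e) W →
          ∀ a : ι → k, a ≠ 0 → (∀ x ∈ W, ∑ i, a i * x i = 0) → Q ^ c ≤ Height.mulHeight a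

/-- H15: assembly. -/
def HTasm : Prop :=
  Aux → Vanish → Red1 → Red2 → Red3 → BoxFin → XiPick → PHBound → ColMat → HtLow →
    (∀ m, RothStmt m) → HT

end Pool.Agent.Helper92.Ru
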