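import Pool.Agent.Helper92.Ru.DefsV

/-! Goals: Diophantine argument and translation to S18577 -/

set_option autoImplicit false

open NumberField MvPolynomial

namespace Pool.Agent.Helper92.Ru

/-- V1: a bad set with maximal vanishing ideal. -/
def MaxBad : Prop :=
  ∀ (k : Type) [Field k] [NumberField k] (T : Finset (FinitePlace k)) (d n q : ℕ)
    (𝒬 : Set (Pt k T d n q)) (κ : ℝ), Bad κ 𝒬 →
    ∃ 𝒬' : Set (Pt k T d n q), 𝒬' ⊆ 𝒬 ∧ Bad κ 𝒬' ∧
      ∀ 𝒬'' : Set (Pt k T d n q), 𝒬'' ⊆ 𝒬' → Bad κ 𝒬'' → JJid 𝒬'' = JJid 𝒬'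

/-- V2: badness is partition regular. -/
def BadUnion : Prop :=
  ∀ (k : Type) [Field k] [NumberField k] (T : Finset (FinitePlace k)) (d n q : ℕ)
    (κ : ℝ) (ι : Type) [Finite ι] (F : ι → Set (Pt k T d n q)), Bad κ (⋃ i, F i) →
    ∃ i, Bad κ (F i)

/-- V3: discretisation of the local proximities. -/
def Discr : Prop :=
  ∀ (k : Type) [Field k] [NumberField k] (T : Finset (FinitePlace k)) (d n q : ℕ)
    (a : Fin q → Fin (n + 1) → k) (C : ℝ) (Cf : ℕ → BB k d n → ℝ) (ε : ℝ),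
    1 ≤ d → 1 ≤ n → 0 < ε → ∃ Lam : ℕ, 1 ≤ Lam ∧ ∀ 𝒬 : Set (Pt k T d n q),
      (∀ P ∈ 𝒬, PtOK a C Cf P) → Bad (2 * d * n + ε) 𝒬 →
      ∃ (mu : SP k T → Fin q → ℕ) (𝒬' : Set (Pt k T d n q)), 𝒬' ⊆ 𝒬 ∧
        Bad (2 * d * n + ε) 𝒬' ∧
        (∀ v, (Finset.univ.filter (fun i => mu v i ≠ 0)).card ≤ d * n) ∧
        (∀ i, ∑ v, mu v i ≤ Lam) ∧ 2 * (d * n) * Lam + 1 ≤ ∑ v, ∑ i, mu v i ∧
        ∀ P ∈ 𝒬', ∀ v i, (mu v i : ℝ) / Lam * Real.log P.H ≤ P.lam v i + C

/-- V4: size of the values of elements of the filtration. -/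
def EvalBound : Prop :=
  ∀ (k : Type) [Field k] [NumberField k] (T : Finset (FinitePlace k)) (d n q : ℕ)
    (a : Fin q → Fin (n + 1) → k) (C : ℝ) (Cf : ℕ → BB k d n → ℝ) (v : SP k T)
    (mu : Fin q → ℕ) (Lam : ℕ) (m t : ℕ), 1 ≤ Lam → ∀ g ∈ Fil d a mu t m,
    ∃ Cg : ℝ, 0 < Cg ∧ ∀ P : Pt k T d n q, PtOK a C Cf P →
      (∀ i, (mu i : ℝ) / Lam * Real.log P.H ≤ P.lam v i + C) →
      ∃ y : k, P.E g = algebraMap k _ y ∧
        nS v y ≤ Cg * P.X v ^ m * P.H ^ (-(t : ℝ) / Lam)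

/-- V5: linear algebra data exist. -/
def LinEx : Prop :=
  ∀ (k : Type) [Field k] [NumberField k] (d n q : ℕ) (a : Fin q → Fin (n + 1) → k)
    (κ : Type) [Fintype κ] (mu : κ → Fin q → ℕ) (m : ℕ) (J : Ideal (BB k d n)),
    Nonempty (LinData a mu m J
      (Module.finrank k ((Rm k d n m).map (Submodule.mkQ (J.restrictScalars k)))))

/-- V6: the subspace theorem step. -/
def SubStep : Prop :=
  ∀ (k : Type) [Field k] [NumberField k] (T : Finset (FinitePlace k)) (d n q : ℕ)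
    (a : Fin q → Fin (n + 1) → k) (C : ℝ) (Cf : ℕ → BB k d n → ℝ), 1 ≤ d → 1 ≤ n → GP a →
    ∀ (Lam : ℕ) (mu : SP k T → Fin q → ℕ), 1 ≤ Lam →
      (∀ v, (Finset.univ.filter (fun i => mu v i ≠ 0)).card ≤ d * n) →
      (∀ i, ∑ v, mu v i ≤ Lam) → 2 * (d * n) * Lam + 1 ≤ ∑ v, ∑ i, mu v i →
    ∀ 𝒬 : Set (Pt k T d n q), 𝒬.Nonempty → (∀ P ∈ 𝒬, PtOK a C Cf P) →
      (∀ P ∈ 𝒬, ∀ v i, (mu v i : ℝ) / Lam * Real.log P.H ≤ P.lam v i + C) →
      ∃ (m : ℕ) (H0 : ℝ) (F : Finset (BB k d n)), (∀ f ∈ F, f ∈ Rm k d n m ∧ f ∉ JJid 𝒬) ∧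
        ∀ P ∈ 𝒬, H0 ≤ P.H → ∃ f ∈ F, P.E f = 0

/-- V7: the Diophantine conclusion. -/
def Dio : Prop :=
  ∀ (k : Type) [Field k] [NumberField k] (T : Finset (FinitePlace k)) (d n q : ℕ)
    (a : Fin q → Fin (n + 1) → k) (C : ℝ) (Cf : ℕ → BB k d n → ℝ) (ε : ℝ),
    1 ≤ d → 1 ≤ n → GP a → 0 < ε → ∃ C' : ℝ, ∀ P : Pt k T d n q, PtOK a C Cf P →
      P.tot ≤ (2 * d * n + ε) * Real.log P.H + C'

section places

/-- P1: every finite place of `L` lies above exactly one finite place of `k`. -/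
def PlBelow : Prop :=
  ∀ (k : Type) [Field k] [NumberField k] (L : Type) [Field L] [NumberField L] [Algebra k L]
    (w : FinitePlace L), ∃! v : FinitePlace k, Above v w

/-- P2: finitely many places above, at most the degree. -/
def PlAbove : Prop :=
  ∀ (k : Type) [Field k] [NumberField k] (L : Type) [Field L] [NumberField L] [Algebra k L],
    (∀ v : FinitePlace k, {w : FinitePlace L | Above v w}.Finite ∧
      {w : FinitePlace L | Above v w}.ncard ≤ Module.finrank k L) ∧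
    (∀ v : InfinitePlace k, Fintype.card (AbI L v) ≤
      Module.finrank k L)

/-- P3: norm formula at finite places. -/
def PlNorm : Prop :=
  ∀ (k : Type) [Field k] [NumberField k] (L : Type) [Field L] [NumberField L] [Algebra k L]
    (v : FinitePlace k) (y : L), y ≠ 0 →
    v (Algebra.norm k y) = ∏ᶠ (w : FinitePlace L) (_ : Above v w), w y

/-- P4: values of elements of `k`; value groups. -/
def PlPow : Prop :=
  ∀ (k : Type) [Field k] [NumberField k] (L : Type) [Field L] [NumberField L] [Algebra k L]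
    (v : FinitePlace k) (w : FinitePlace L), Above v w →
    (∃ e : ℕ, 1 ≤ e ∧ e ≤ Module.finrank k L ∧ ∀ c : k, w (algebraMap k L c) = v c ^ e) ∧
    ∀ y : L, y ≠ 0 → ∃ j : ℤ, w y = (qw v : ℝ) ^ j

/-- P5: local generator and denominators. -/
def GenLoc : Prop :=
  ∀ (k : Type) [Field k] [NumberField k] (L : Type) [Field L] [NumberField L] [Algebra k L]
    (n : ℕ) (v : FinitePlace k) (x : Fin (n + 1) → L), x ≠ 0 →
    ∃ (y : L) (s : 𝓞 k), y ≠ 0 ∧ (∀ w : FinitePlace L, Above v w → w y = ⨆ j, w (x j)) ∧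
      v (s : k) = 1 ∧ ∀ j, IsIntegral ℤ (algebraMap k L (s : k) * x j / y)

/-- P6: embeddings and infinite places. -/
def InfProd : Prop :=
  ∀ (k : Type) [Field k] [NumberField k] (L : Type) [Field L] [NumberField L] [Algebra k L]
    (v : InfinitePlace k) (F : InfinitePlace L → ℝ),
    ∏ ρ : AbE L v, F (InfinitePlace.mk ρ.1) ^ v.mult =
      ∏ w : AbI L v, F w.1 ^ w.1.mult

/-- P7: values of symmetric forms lie in `k`; the norm forms give norms. -/
def EvalK : Prop :=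
  ∀ (k : Type) [Field k] [NumberField k] (L : Type) [Field L] [NumberField L] [Algebra k L]
    (d n : ℕ) (σ : Fin d ≃ (L →ₐ[k] AlgebraicClosure k)) (x : Fin (n + 1) → L),
    (∀ m : ℕ, ∀ f ∈ Rm k d n m, ∃ y : k, evx σ x f = algebraMap k _ y) ∧
    (∀ a : Fin (n + 1) → k, evx σ x (Nl d a) =
      algebraMap k _ (Algebra.norm k (∑ j, algebraMap k L (a j) * x j)))

/-- P8: bound at finite places. -/
def EvalFin : Prop :=
  ∀ (k : Type) [Field k] [NumberField k] (L : Type) [Field L] [NumberField L] [Algebra k L]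
    (d n : ℕ) (σ : Fin d ≃ (L →ₐ[k] AlgebraicClosure k)) (x : Fin (n + 1) → L), x ≠ 0 →
    ∀ (v : FinitePlace k) (m : ℕ) (b : ℝ), ∀ f ∈ Rm k d n m, (∀ e, v (coeff e f) ≤ b) →
      ∀ y : k, evx σ x f = algebraMap k _ y → v y ≤ b * XFin x v ^ m

/-- P9: bound at infinite places. -/
def EvalInf : Prop :=
  ∀ (k : Type) [Field k] [NumberField k] (L : Type) [Field L] [NumberField L] [Algebra k L]
    (d n : ℕ) (σ : Fin d ≃ (L →ₐ[k] AlgebraicClosure k)) (x : Fin (n + 1) → L), x ≠ 0 →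
    ∀ (v : InfinitePlace k) (m : ℕ), ∀ f ∈ Rm k d n m,
      ∀ y : k, evx σ x f = algebraMap k _ y →
        v y ^ v.mult ≤ (∑ e ∈ f.support, v (coeff e f)) ^ v.mult * XInf x v ^ m

/-- P10: norm at infinite places. -/
def NormInf : Prop :=
  ∀ (k : Type) [Field k] [NumberField k] (L : Type) [Field L] [NumberField L] [Algebra k L]
    (v : InfinitePlace k) (y : L),
    v (Algebra.norm k y) ^ v.mult =
      ∏ w : AbI L v, w.1 y ^ w.1.mult

/-- P11: lower bounds for the local proximities. -/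
def PrLow : Prop :=
  ∀ (k : Type) [Field k] [NumberField k] (L : Type) [Field L] [NumberField L] [Algebra k L]
    (n : ℕ) (a : Fin (n + 1) → k) (x : Fin (n + 1) → L),
    (∑ j, algebraMap k L (a j) * x j) ≠ 0 →
    (∀ w : InfinitePlace L, -Real.log (n + 1) ≤ prI a x w) ∧
    (∀ w : FinitePlace L, 0 ≤ prF a x w)

/-- P12: at every place at most `n` of the proximities are large. -/
def PrFew : Prop :=
  ∀ (k : Type) [Field k] [NumberField k] (T : Finset (FinitePlace k)) (n q d : ℕ)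
    (a : Fin q → Fin (n + 1) → k), GP a →
    ∃ C : ℝ, 0 < C ∧ ∀ (L : Type) [Field L] [NumberField L] [Algebra k L],
      Module.finrank k L = d → ∀ x : Fin (n + 1) → L, x ≠ 0 →
      (∀ i, ∑ j, algebraMap k L (a i j) * x j ≠ 0) →
      (∀ w : InfinitePlace L, ∀ s : Finset (Fin q), (∀ i ∈ s, C < prI (a i) x w) → s.card ≤ n) ∧
      (∀ w : FinitePlace L, (∃ v ∈ T, Above v w) →
        ∀ s : Finset (Fin q), (∀ i ∈ s, C < prF (a i) x w) → s.card ≤ n)

/-- P13: heights of the hyperplanes over `L` are bounded. -/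
def HtHyp : Prop :=
  ∀ (k : Type) [Field k] [NumberField k] (n d : ℕ) (a : Fin (n + 1) → k), a ≠ 0 →
    ∃ C : ℝ, ∀ (L : Type) [Field L] [NumberField L] [Algebra k L], Module.finrank k L = d →
      (∑ w : InfinitePlace L, (w.mult : ℝ) * Real.log (⨆ j, w (algebraMap k L (a j)))) +
        ∑ᶠ w : FinitePlace L, Real.log (⨆ j, w (algebraMap k L (a j))) ≤ C

/-- P14: the data of a point satisfy `PtOK`. -/
def PtAll : Prop :=
  ∀ (k : Type) [Field k] [NumberField k] (T : Finset (FinitePlace k)) (n q d : ℕ)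
    (a : Fin q → Fin (n + 1) → k), 1 ≤ n → 1 ≤ d → GP a →
    ∃ (C : ℝ) (Cf : ℕ → BB k d n → ℝ), ∀ (L : Type) [Field L] [NumberField L] [Algebra k L],
      Module.finrank k L = d → ∀ (σ : Fin d ≃ (L →ₐ[k] AlgebraicClosure k))
      (x : Fin (n + 1) → L), x ≠ 0 → (∀ i, ∑ j, algebraMap k L (a i j) * x j ≠ 0) →
      PtOK a C Cf (ptOf T a σ x)

/-- P15: total proximity and height of the point in terms of the places of `L`. -/
def PtSums : Prop :=
  ∀ (k : Type) [Field k] [NumberField k] (T : Finset (FinitePlace k)) (n q d : ℕ)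
    (a : Fin q → Fin (n + 1) → k) (L : Type) [Field L] [NumberField L] [Algebra k L]
    (σ : Fin d → (L →ₐ[k] AlgebraicClosure k)) (x : Fin (n + 1) → L), x ≠ 0 →
    (ptOf T a σ x).tot =
      (∑ w : InfinitePlace L, (w.mult : ℝ) * ∑ i, prI (a i) x w) +
        ∑ᶠ (w : FinitePlace L) (_ : ∃ v ∈ T, Above v w), ∑ i, prF (a i) x w ∧
    Real.log (ptOf T a σ x).H =
      (∑ w : InfinitePlace L, (w.mult : ℝ) * Real.log (⨆ j, w (x j))) +
        ∑ᶠ w : FinitePlace L, Real.log (⨆ j, w (x j)) ∧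
    1 ≤ (ptOf T a σ x).H

end places

end Pool.Agent.Helper92.Ru
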