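import Pool.Agent.Helper92.Ru.OwnDefs
import Pool.Agent.Helper92.Ru.AsmD

/-! Sums over places in an extension of number fields -/

set_option autoImplicit false

open NumberField IsDedekindDomain Function

namespace Pool.Agent.Helper92.Ru.Own

open Pool.Agent.Helper92.Ru

section nrm

variable {L : Type} [Field L] [NumberField L] {n : ℕ}

theorem nrm_nonneg (w : Place L) (x : L) : 0 ≤ nrm w x := by
  rcases w with w | w
  · exact pow_nonneg (apply_nonneg w x) _
  · exact apply_nonneg w x

theorem nrm_pos (w : Place L) {x : L} (hx : x ≠ 0) : 0 < nrm w x := by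
  rcases w with w | w
  · exact pow_pos (w.pos_iff.2 hx) _
  · exact FinitePlace.pos_iff.2 hx

theorem nrm_zero (w : Place L) : nrm w 0 = 0 := by
  rcases w with w | w
  · simp [nrm, w.mult_pos.ne']
  · simp [nrm]

theorem nrm_mul (w : Place L) (x y : L) : nrm w (x * y) = nrm w x * nrm w y := by
  rcases w with w | w
  · simp [nrm, mul_pow]
  · simp [nrm]

theorem nrm_div (w : Place L) (x y : L) : nrm w (x / y) = nrm w x / nrm w y := by
  rcases w with w | w
  · simp [nrm, div_pow]
  · simp [nrm]

theorem nrm_pow (w : Place L) (x : L) (m : ℕ) : nrm w (x ^ m) = nrm w x ^ m := by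
  rcases w with w | w
  · simp only [nrm, map_pow]
    rw [← pow_mul, ← pow_mul, mul_comm]
  · simp [nrm]

theorem sup_att (w : Place L) (x : Fin (n + 1) → L) : ∃ j, nrm w (x j) = ⨆ j, nrm w (x j) :=
  exists_eq_ciSup_of_finite

theorem sup_ge (w : Place L) (x : Fin (n + 1) → L) (j : Fin (n + 1)) :
    nrm w (x j) ≤ ⨆ j, nrm w (x j) :=
  le_ciSup (f := fun j => nrm w (x j)) (Set.finite_range _).bddAbove j

theorem sup_eq (w : Place L) (x : Fin (n + 1) → L) (i : Fin (n + 1))
    (h : ∀ j, nrm w (x j) ≤ nrm w (x i)) : ⨆ j, nrm w (x j) = nrm w (x i) :=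
  le_antisymm (ciSup_le h) (sup_ge w x i)

theorem sup_pos (w : Place L) {x : Fin (n + 1) → L} (hx : x ≠ 0) : 0 < ⨆ j, nrm w (x j) := by
  obtain ⟨i, hi⟩ := Function.ne_iff.1 hx
  exact (nrm_pos w hi).trans_le (sup_ge w x i)

theorem sup_smul (w : Place L) (c : L) (x : Fin (n + 1) → L) :
    ⨆ j, nrm w (c * x j) = nrm w c * ⨆ j, nrm w (x j) := by
  obtain ⟨i, hi⟩ := sup_att w x
  rw [← hi]
  rw [show nrm w c * nrm w (x i) = nrm w (c * x i) from (nrm_mul w c (x i)).symm]
  apply sup_eq w (fun j => c * x j) i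
  intro j
  rw [nrm_mul, nrm_mul]
  exact mul_le_mul_of_nonneg_left (hi ▸ sup_ge w x j) (nrm_nonneg w c)

theorem sup_inl (w : InfinitePlace L) (x : Fin (n + 1) → L) :
    ⨆ j, nrm (Sum.inl w) (x j) = (⨆ j, w (x j)) ^ w.mult := by
  obtain ⟨i, hi⟩ := Pool.Agent.Helper67.Ru.U_att (fun y => w y) x
  have hi' : w (x i) = ⨆ j, w (x j) := hi
  rw [← hi']
  show ⨆ j, nrm (Sum.inl w) (x j) = nrm (Sum.inl w) (x i)
  apply sup_eq
  intro j
  have h := Pool.Agent.Helper67.Ru.U_ge (fun y => w y) x j
  rw [← hi] at h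
  exact pow_le_pow_left₀ (apply_nonneg w _) h _

theorem sup_inr (w : FinitePlace L) (x : Fin (n + 1) → L) :
    ⨆ j, nrm (Sum.inr w) (x j) = ⨆ j, w (x j) := rfl

end nrm

section ov

variable {k : Type} [Field k] [NumberField k] {L : Type} [Field L] [NumberField L] [Algebra k L]
  {n : ℕ}

theorem over_inr (v : FinitePlace k) (w : FinitePlace L) :
    Over (Sum.inr w : Place L) (Sum.inr v : Place k) ↔ Above v w :=
  ⟨fun h => @Pool.Agent.Helper56.Ru.above_of_liesOver k _ _ L _ _ _ v w h, liesOver_of_above⟩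

theorem over_unique {v v' : Place k} {w : Place L} (h : Over w v) (h' : Over w v') : v = v' := by
  rcases w with w | w <;> rcases v with v | v <;> rcases v' with v' | v'
  · exact congrArg Sum.inl (Eq.trans (Eq.symm h) h')
  · exact h'.elim
  · exact h.elim
  · exact h.elim
  · exact h.elim
  · exact h.elim
  · exact h'.elim
  · exact congrArg Sum.inr (Pool.Agent.Helper56.Ru.above_inj ((over_inr v w).1 h)
      ((over_inr v' w).1 h'))

theorem over_exists (k : Type) [Field k] [NumberField k] {L : Type} [Field L] [NumberField L]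
    [Algebra k L] (w : Place L) : ∃ v : Place k, Over w v := by
  rcases w with w | w
  · exact ⟨Sum.inl (w.comap (algebraMap k L)), rfl⟩
  · obtain ⟨v, hv, -⟩ := Pool.Agent.Helper56.Ru.plBelow k L w
    exact ⟨Sum.inr v, (over_inr v w).2 hv⟩

theorem over_finite (v : Place k) : {w : Place L | Over w v}.Finite := by
  rcases v with v | v
  · apply (Set.finite_range (Sum.inl : InfinitePlace L → Place L)).subset
    rintro (w | w) hw
    · exact ⟨w, rfl⟩
    · exact hw.elim
  · apply (((Pool.Agent.Helper7.Ru.plAbove k L).1 v).1.image (Sum.inr : _ → Place L)).subset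
    rintro (w | w) hw
    · exact hw.elim
    · exact ⟨w, (over_inr v w).1 hw, rfl⟩

/-- `Σ_{w ∣ v} log ‖y‖_w = log ‖N y‖_v` -/
theorem sum_norm (v : Place k) (y : L) (hy : y ≠ 0) :
    ∑ᶠ (w : Place L) (_ : Over w v), Real.log (nrm w y) =
      Real.log (nrm v (Algebra.norm k y)) := by
  classical
  rcases v with v | v
  · have h1 := normInf Pool.Agent.Helper87.Ru.infProd k L v y
    have h2 : ∑ᶠ (w : Place L) (_ : Over w (Sum.inl v : Place k)), Real.log (nrm w y) =
        ∑ w : AbI L v, Real.log (w.1 y ^ w.1.mult) := by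
      have e1 : {w : Place L | Over w (Sum.inl v : Place k)} =
          Sum.inl '' {w : InfinitePlace L | w.comap (algebraMap k L) = v} := by
        ext w
        rcases w with w | w
        · simp [Over]
        · simp [Over]
      have e2 : ∑ᶠ (w : Place L) (_ : Over w (Sum.inl v : Place k)), Real.log (nrm w y) =
          ∑ᶠ w ∈ Sum.inl '' {w : InfinitePlace L | w.comap (algebraMap k L) = v},
            Real.log (nrm w y) := by
        rw [← e1]; rfl
      rw [e2, finsum_mem_image Sum.inl_injective.injOn]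
      rw [← finsum_set_coe_eq_finsum_mem]
      exact finsum_eq_sum_of_fintype (fun w : AbI L v => Real.log (w.1 y ^ w.1.mult))
    rw [h2, ← Real.log_prod]
    · rw [← h1]; rfl
    · intro w _
      exact (pow_pos (w.1.pos_iff.2 hy) _).ne'
  · have h1 := plNormTry k L v y hy
    have hfin := ((Pool.Agent.Helper7.Ru.plAbove k L).1 v).1
    have h2 : ∑ᶠ (w : Place L) (_ : Over w (Sum.inr v : Place k)), Real.log (nrm w y) =
        ∑ w ∈ hfin.toFinset, Real.log (w y) := by
      have e1 : {w : Place L | Over w (Sum.inr v : Place k)} =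
          Sum.inr '' {w : FinitePlace L | Above v w} := by
        ext w
        rcases w with w | w
        · simp [Over]
        · constructor
          · intro h
            exact ⟨w, (over_inr v w).1 h, rfl⟩
          · rintro ⟨w', h, h'⟩
            have := Sum.inr_injective h'
            subst this
            exact (over_inr v w').2 h
      have e2 : ∑ᶠ (w : Place L) (_ : Over w (Sum.inr v : Place k)), Real.log (nrm w y) =
          ∑ᶠ w ∈ Sum.inr '' {w : FinitePlace L | Above v w}, Real.log (nrm w y) := by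
        rw [← e1]; rfl
      rw [e2, finsum_mem_image Sum.inr_injective.injOn]
      exact finsum_mem_eq_finite_toFinset_sum (fun w : FinitePlace L => Real.log (w y)) hfin
    rw [h2, ← Real.log_prod]
    · congr 1
      show _ = v (Algebra.norm k y)
      rw [h1]
      exact (finprod_mem_eq_finite_toFinset_prod (fun w : FinitePlace L => w y) hfin).symm
    · intro w _
      exact (FinitePlace.pos_iff.2 hy).ne'

/-- `Σ_{w ∣ v} log ‖c‖_w = [L : k] log ‖c‖_v` for `c` in `k` -/
theorem sum_const (v : Place k) (c : k) (hc : c ≠ 0) :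
    ∑ᶠ (w : Place L) (_ : Over w v), Real.log (nrm w (algebraMap k L c)) =
      (Module.finrank k L : ℝ) * Real.log (nrm v c) := by
  rw [sum_norm v _ ((map_ne_zero _).2 hc), Algebra.norm_algebraMap, nrm_pow, Real.log_pow]

/-- `‖c‖_w` depends only on `‖c‖_v`, monotonically -/
theorem over_mono {v : Place k} {w : Place L} (h : Over w v) :
    ∃ e : ℝ, 0 < e ∧ ∀ c : k, nrm w (algebraMap k L c) = nrm v c ^ e := by
  rcases v with v | v <;> rcases w with w | w
  · have h' : w.comap (algebraMap k L) = v := h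
    refine ⟨(w.mult : ℝ) / v.mult, by have := w.mult_pos; have := v.mult_pos; positivity, ?_⟩
    intro c
    show w (algebraMap k L c) ^ w.mult = (v c ^ v.mult) ^ ((w.mult : ℝ) / v.mult)
    have e1 : w (algebraMap k L c) = v c := by rw [← h']; rfl
    rw [e1, ← Real.rpow_natCast, ← Real.rpow_natCast, ← Real.rpow_mul (apply_nonneg v c)]
    congr 1
    have : (v.mult : ℝ) ≠ 0 := by exact_mod_cast v.mult_pos.ne'
    field_simp
  · exact h.elim
  · exact h.elim
  · obtain ⟨⟨e, he, -, hc⟩, -⟩ := Pool.Agent.Helper58.Ru.plPow k L v w ((over_inr v w).1 h)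
    refine ⟨e, by exact_mod_cast he, fun c => ?_⟩
    show w (algebraMap k L c) = v c ^ (e : ℝ)
    rw [hc c, Real.rpow_natCast]

theorem sup_over {v : Place k} (y : Fin (n + 1) → k) (i : Fin (n + 1))
    (hi : ∀ j, nrm v (y j) ≤ nrm v (y i)) {w : Place L} (h : Over w v) :
    ⨆ j, nrm w (algebraMap k L (y j)) = nrm w (algebraMap k L (y i)) := by
  obtain ⟨e, he, hc⟩ := over_mono h
  apply sup_eq w (fun j => algebraMap k L (y j)) i
  intro j
  rw [hc, hc]
  exact Real.rpow_le_rpow (nrm_nonneg _ _) (hi j) he.le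

end ov

end Pool.Agent.Helper92.Ru.Own
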