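import Pool.Agent.Helper92.Ru.OwnA

/-! Invariance of the height and of the proximity function under extension of the field and
scaling of the coordinates -/

set_option autoImplicit false

open NumberField IsDedekindDomain Function

namespace Pool.Agent.Helper92.Ru.Own

open Pool.Agent.Helper92.Ru

section fib

variable {k : Type} [Field k] [NumberField k] {L : Type} [Field L] [NumberField L] [Algebra k L]
  {n : ℕ}

theorem fib (f : Place L → ℝ) (g : Place k → ℝ) (D : ℝ)
    (h1 : ∀ v, ∑ᶠ (w : Place L) (_ : Over w v), f w = D * g v)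
    (h2 : ∀ v w, Over w v → g v = 0 → f w = 0) (s : Set (Place k))
    (h3 : (s ∩ support g).Finite) :
    ∑ᶠ (w : Place L) (_ : ∃ v ∈ s, Over w v), f w = D * ∑ᶠ v ∈ s, g v := by
  classical
  have e1 : ∑ᶠ (w : Place L) (_ : ∃ v ∈ s, Over w v), f w =
      ∑ᶠ w ∈ ⋃ v ∈ s ∩ support g, {w : Place L | Over w v}, f w := by
    have : ∑ᶠ w ∈ {w : Place L | ∃ v ∈ s, Over w v}, f w =
      ∑ᶠ w ∈ ⋃ v ∈ s ∩ support g, {w : Place L | Over w v}, f w := by
      apply finsum_mem_inter_support_eq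
      ext w
      simp only [Set.mem_inter_iff, Set.mem_ofPred_eq, mem_support, Set.mem_iUnion, exists_prop]
      constructor
      · rintro ⟨⟨v, hv, hw⟩, hf⟩
        exact ⟨⟨v, ⟨hv, fun h => hf (h2 v w hw h)⟩, hw⟩, hf⟩
      · rintro ⟨⟨v, ⟨hv, -⟩, hw⟩, hf⟩
        exact ⟨⟨v, hv, hw⟩, hf⟩
    exact this
  rw [e1, finsum_mem_biUnion _ h3 (fun v _ => over_finite v)]
  · rw [← finsum_mem_inter_support g s, mul_finsum_mem]
    exact finsum_mem_congr rfl (fun v _ => h1 v)
  · intro v _ v' _ hvv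
    refine Set.disjoint_left.2 fun w hw hw' => hvv ?_
    exact over_unique hw hw'

theorem ht_supp {x : Fin (n + 1) → L} (hx : x ≠ 0) :
    (support fun w : Place L => Real.log (⨆ j, nrm w (x j))).Finite := by
  have h := (Set.finite_range (Sum.inl : InfinitePlace L → Place L)).union
    ((Pool.Agent.Helper67.Ru.U_supp hx).image (Sum.inr : FinitePlace L → Place L))
  refine h.subset ?_
  rintro (w | w) hw
  · exact Or.inl ⟨w, rfl⟩
  · right
    refine ⟨w, ?_, rfl⟩
    intro h1
    apply hw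
    have h1' : ⨆ j, w (x j) = 1 := h1
    show Real.log (⨆ j, w (x j)) = 0
    rw [h1', Real.log_one]

theorem ht_eq {x : Fin (n + 1) → L} (hx : x ≠ 0) :
    ∑ᶠ w : Place L, Real.log (⨆ j, nrm w (x j)) =
      (∑ w : InfinitePlace L, (w.mult : ℝ) * Real.log (⨆ j, w (x j))) +
        ∑ᶠ w : FinitePlace L, Real.log (⨆ j, w (x j)) := by
  classical
  have hsf := Pool.Agent.Helper67.Ru.U_supp hx
  rw [finsum_eq_sum_of_support_subset (s := Finset.univ.disjSum hsf.toFinset), Finset.sum_disjSum]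
  · congr 1
    · refine Finset.sum_congr rfl fun w _ => ?_
      rw [sup_inl, Real.log_pow]
    · symm
      apply finsum_eq_sum_of_support_subset
      intro w hw
      rw [Set.Finite.coe_toFinset]
      intro h3
      apply hw
      have h3' : ⨆ j, w (x j) = 1 := h3
      show Real.log (⨆ j, w (x j)) = 0
      rw [h3', Real.log_one]
  · rintro (w | w) hw
    · simp
    · refine Finset.mem_coe.2 (Finset.inr_mem_disjSum.2 ((Set.Finite.mem_toFinset _).2 ?_))
      intro h1
      apply hw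
      have h1' : ⨆ j, w (x j) = 1 := h1
      show Real.log (⨆ j, w (x j)) = 0
      rw [h1', Real.log_one]

theorem ht_eq' {x : Fin (n + 1) → L} (hx : x ≠ 0) :
    ∑ᶠ w : Place L, Real.log (⨆ j, nrm w (x j)) = Real.log (Height.mulHeight x) := by
  rw [ht_eq hx, NumberField.mulHeight_eq hx]
  have hpI : ∀ w : InfinitePlace L, 0 < ⨆ j, w (x j) := by
    intro w
    obtain ⟨i, hi⟩ := Function.ne_iff.1 hx
    exact (w.pos_iff.2 hi).trans_le (Pool.Agent.Helper67.Ru.U_ge (fun y => w y) x i)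
  have h1 : (0 : ℝ) < ∏ v : InfinitePlace L, (⨆ i, v (x i)) ^ v.mult :=
    Finset.prod_pos fun w _ => pow_pos (hpI w) _
  have hsf := Pool.Agent.Helper67.Ru.U_supp hx
  have e2 : ∏ᶠ v : FinitePlace L, ⨆ i, v (x i) = ∏ v ∈ hsf.toFinset, ⨆ i, v (x i) :=
    finprod_eq_prod _ hsf
  have h2 : (0 : ℝ) < ∏ v ∈ hsf.toFinset, ⨆ i, v (x i) :=
    Finset.prod_pos fun w _ => Pool.Agent.Helper67.Ru.U_pos hx w
  rw [e2, Real.log_mul h1.ne' h2.ne', Real.log_prod (fun w _ => (pow_pos (hpI w) _).ne'),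
    Real.log_prod (fun w _ => (Pool.Agent.Helper67.Ru.U_pos hx w).ne')]
  congr 1
  · exact Finset.sum_congr rfl fun w _ => (Real.log_pow _ _).symm
  · apply finsum_eq_sum_of_support_subset
    intro w hw
    rw [Set.Finite.coe_toFinset]
    intro h3
    apply hw
    have h3' : ⨆ j, w (x j) = 1 := h3
    show Real.log (⨆ j, w (x j)) = 0
    rw [h3', Real.log_one]

open Classical in
/-- the height over `L` of a point over `k` -/
theorem ht_ext {y : Fin (n + 1) → k} (hy : y ≠ 0) :
    ∑ᶠ w : Place L, Real.log (⨆ j, nrm w (algebraMap k L (y j))) =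
      (Module.finrank k L : ℝ) * ∑ᶠ v : Place k, Real.log (⨆ j, nrm v (y j)) := by
  have key : ∀ v : Place k, ∃ i, y i ≠ 0 ∧ (⨆ j, nrm v (y j)) = nrm v (y i) ∧
      ∀ w : Place L, Over w v →
        ⨆ j, nrm w (algebraMap k L (y j)) = nrm w (algebraMap k L (y i)) := by
    intro v
    obtain ⟨i, hi⟩ := sup_att v y
    refine ⟨i, ?_, hi.symm, fun w hw => sup_over y i (fun j => hi ▸ sup_ge v y j) hw⟩
    intro h0
    have := sup_pos v hy
    rw [← hi, h0, nrm_zero] at this
    exact lt_irrefl _ this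
  have h := fib (k := k) (L := L)
    (fun w => Real.log (⨆ j, nrm w (algebraMap k L (y j))))
    (fun v => Real.log (⨆ j, nrm v (y j))) (Module.finrank k L : ℝ) ?_ ?_ Set.univ
    (by rw [Set.univ_inter]; exact ht_supp hy)
  · rw [finsum_mem_univ] at h
    rw [← h]
    apply finsum_congr
    intro w
    obtain ⟨v, hv⟩ := over_exists k w
    have : (∃ v ∈ Set.univ, Over w (v : Place k)) := ⟨v, trivial, hv⟩
    rw [finsum_eq_if, if_pos this]
  · intro v
    obtain ⟨i, hi, hv, hw⟩ := key v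
    show _ = (Module.finrank k L : ℝ) * Real.log (⨆ j, nrm v (y j))
    rw [hv, ← sum_const v (y i) hi]
    exact finsum_mem_congr (s := {w : Place L | Over w v}) rfl (fun w h => by rw [hw w h])
  · intro v w h h0
    obtain ⟨i, hi, hv, hw⟩ := key v
    change Real.log (⨆ j, nrm v (y j)) = 0 at h0
    change Real.log (⨆ j, nrm w (algebraMap k L (y j))) = 0
    rw [hv] at h0
    obtain ⟨e, he, hc⟩ := over_mono h
    rw [hw w h, hc, Real.log_rpow (nrm_pos v hi), h0, mul_zero]

end fib

end Pool.Agent.Helper92.Ru.Own
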