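import Pool.Agent.Helper92.Ru.OwnB

/-! Towers; the height and the proximity function do not depend on the field and the coordinates -/

set_option autoImplicit false

open NumberField IsDedekindDomain Function

namespace Pool.Agent.Helper92.Ru.Own

open Pool.Agent.Helper92.Ru

section tower

variable {k : Type} [Field k] [NumberField k] {F : Type} [Field F] [NumberField F] [Algebra k F]
  {L : Type} [Field L] [NumberField L] [Algebra k L] [Algebra F L] [IsScalarTower k F L] {n q : ℕ}

theorem over_trans {v : Place k} {u : Place F} {w : Place L} (h : Over w u) (h' : Over u v) :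
    Over w v := by
  rcases w with w | w <;> rcases u with u | u <;> rcases v with v | v
  · have h1 : w.comap (algebraMap F L) = u := h
    have h2 : u.comap (algebraMap k F) = v := h'
    show w.comap (algebraMap k L) = v
    rw [IsScalarTower.algebraMap_eq k F L, InfinitePlace.comap_comp, h1, h2]
  · exact h'.elim
  · exact h.elim
  · exact h.elim
  · exact h.elim
  · exact h.elim
  · exact h'.elim
  · rw [over_inr] at h h' ⊢
    intro y
    rw [h' y, h (algebraMap k F y), ← IsScalarTower.algebraMap_apply]

theorem over_tower (S : Finset (Place k)) (w : Place L) :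
    (∃ v ∈ S, Over w v) ↔ ∃ u ∈ {u : Place F | ∃ v ∈ S, Over u v}, Over w u := by
  constructor
  · rintro ⟨v, hv, hw⟩
    obtain ⟨u, hu⟩ := over_exists F w
    obtain ⟨v', hv'⟩ := over_exists k u
    have := over_unique hw (over_trans hu hv')
    subst this
    exact ⟨u, ⟨v, hv, hv'⟩, hu⟩
  · rintro ⟨u, ⟨v, hv, hv'⟩, hu⟩
    exact ⟨v, hv, over_trans hu hv'⟩

omit [NumberField k] [NumberField F] [NumberField L] in
theorem form_ext (b : Fin (n + 1) → k) (c : L) (y : Fin (n + 1) → F) :
    form b (fun j => c * algebraMap F L (y j)) = c * algebraMap F L (form b y) := by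
  unfold form
  rw [map_sum, Finset.mul_sum]
  refine Finset.sum_congr rfl fun j _ => ?_
  rw [map_mul, ← IsScalarTower.algebraMap_apply]
  ring

omit [Algebra k L] [IsScalarTower k F L] [NumberField k] [Algebra k F] in
/-- the height does not depend on the coordinates and the field -/
theorem height_ext {y : Fin (n + 1) → F} (hy : y ≠ 0) {c : L} (hc : c ≠ 0) :
    height (fun j => c * algebraMap F L (y j)) = height y := by
  have hy' : (fun j => algebraMap F L (y j)) ≠ 0 := by
    obtain ⟨i, hi⟩ := Function.ne_iff.1 hy
    exact Function.ne_iff.2 ⟨i, (map_ne_zero _).2 hi⟩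
  have hcy : (fun j => c * algebraMap F L (y j)) ≠ 0 := by
    obtain ⟨i, hi⟩ := Function.ne_iff.1 hy
    exact Function.ne_iff.2 ⟨i, mul_ne_zero hc ((map_ne_zero _).2 hi)⟩
  unfold height
  rw [ht_eq' hcy]
  have e1 : Height.mulHeight (fun j => c * algebraMap F L (y j)) =
      Height.mulHeight (fun j => algebraMap F L (y j)) :=
    Height.mulHeight_smul_eq_mulHeight (fun j => algebraMap F L (y j)) hc
  rw [e1, ← ht_eq' hy', ht_ext hy, ← Module.finrank_mul_finrank ℚ F L]
  have h1 : (Module.finrank F L : ℝ) ≠ 0 := by
    exact_mod_cast (Module.finrank_pos (R := F) (M := L)).ne'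
  have h2 : (Module.finrank ℚ F : ℝ) ≠ 0 := by
    exact_mod_cast (Module.finrank_pos (R := ℚ) (M := F)).ne'
  push_cast
  field_simp

/-- the proximity function does not depend on the coordinates and the field -/
theorem prox_ext (S : Finset (Place k)) (b : Fin q → Fin (n + 1) → k) {y : Fin (n + 1) → F}
    (hy : y ≠ 0) (hb : ∀ i, form (b i) y ≠ 0) {c : L} (hc : c ≠ 0) :
    prox S b (fun j => c * algebraMap F L (y j)) = prox S b y := by
  classical
  have hfin : {u : Place F | ∃ v ∈ S, Over u v}.Finite := by
    have : {u : Place F | ∃ v ∈ S, Over u v} = ⋃ v ∈ S, {u : Place F | Over u v} := by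
      ext u; simp
    rw [this]
    exact Set.Finite.biUnion S.finite_toSet fun v _ => over_finite v
  have key : ∀ i, ∑ᶠ (w : Place L) (_ : ∃ v ∈ S, Over w v),
      Real.log ((⨆ j, nrm w (c * algebraMap F L (y j))) /
        nrm w (form (b i) (fun j => c * algebraMap F L (y j)))) =
      (Module.finrank F L : ℝ) * ∑ᶠ (u : Place F) (_ : ∃ v ∈ S, Over u v),
        Real.log ((⨆ j, nrm u (y j)) / nrm u (form (b i) y)) := by
    intro i
    have k1 : ∀ u : Place F, ∃ z : F, z ≠ 0 ∧
        (⨆ j, nrm u (y j)) / nrm u (form (b i) y) = nrm u z ∧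
        ∀ w : Place L, Over w u → (⨆ j, nrm w (c * algebraMap F L (y j))) /
          nrm w (form (b i) (fun j => c * algebraMap F L (y j))) = nrm w (algebraMap F L z) := by
      intro u
      obtain ⟨j, hj⟩ := sup_att u y
      have hj0 : y j ≠ 0 := by
        intro h0
        have := sup_pos u hy
        rw [← hj, h0, nrm_zero] at this
        exact lt_irrefl _ this
      refine ⟨y j / form (b i) y, div_ne_zero hj0 (hb i), ?_, ?_⟩
      · rw [nrm_div, hj]
      · intro w hw
        rw [sup_smul w c (fun j => algebraMap F L (y j)),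
          sup_over y j (fun j' => hj ▸ sup_ge u y j') hw, form_ext, nrm_mul, map_div₀, nrm_div,
          mul_div_mul_left _ _ (nrm_pos w hc).ne']
    have h := fib (k := F) (L := L)
      (fun w => Real.log ((⨆ j, nrm w (c * algebraMap F L (y j))) /
        nrm w (form (b i) (fun j => c * algebraMap F L (y j)))))
      (fun u => Real.log ((⨆ j, nrm u (y j)) / nrm u (form (b i) y))) (Module.finrank F L : ℝ)
      ?_ ?_ {u : Place F | ∃ v ∈ S, Over u v} (hfin.subset Set.inter_subset_left)
    · refine Eq.trans ?_ h
      exact finsum_mem_congr (s := {w : Place L | ∃ v ∈ S, Over w v})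
        (t := {w : Place L | ∃ u ∈ {u : Place F | ∃ v ∈ S, Over u v}, Over w u})
        (Set.ext fun w => over_tower S w) (fun _ _ => rfl)
    · intro u
      obtain ⟨z, hz, h1, h2⟩ := k1 u
      show _ = (Module.finrank F L : ℝ) * Real.log ((⨆ j, nrm u (y j)) / nrm u (form (b i) y))
      rw [h1, ← sum_const u z hz]
      exact finsum_mem_congr (s := {w : Place L | Over w u}) rfl (fun w h => by rw [h2 w h])
    · intro u w h h0
      obtain ⟨z, hz, h1, h2⟩ := k1 u
      change Real.log ((⨆ j, nrm u (y j)) / nrm u (form (b i) y)) = 0 at h0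
      rw [h1] at h0
      obtain ⟨e, he, hc⟩ := over_mono h
      rw [h2 w h, hc, Real.log_rpow (nrm_pos u hz), h0, mul_zero]
  unfold prox
  simp_rw [key]
  rw [← Finset.mul_sum, ← Module.finrank_mul_finrank ℚ F L]
  have h1 : (Module.finrank F L : ℝ) ≠ 0 := by
    exact_mod_cast (Module.finrank_pos (R := F) (M := L)).ne'
  have h2 : (Module.finrank ℚ F : ℝ) ≠ 0 := by
    exact_mod_cast (Module.finrank_pos (R := ℚ) (M := F)).ne'
  push_cast
  field_simp

end tower

end Pool.Agent.Helper92.Ru.Own
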