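import Pool.Agent.Helper92.Ru.OwnC

/-! The inequality for points with coordinates in a field `F` with `[F : k] ≤ δ` -/

set_option autoImplicit false

open NumberField IsDedekindDomain Function

namespace Pool.Agent.Helper92.Ru.Own

open Pool.Agent.Helper92.Ru

section pr

variable {k : Type} [Field k] [NumberField k] {F : Type} [Field F] [NumberField F] [Algebra k F]
  {n q : ℕ}

theorem above_set_finite (S : Finset (Place k)) : {u : Place F | ∃ v ∈ S, Over u v}.Finite := by
  have : {u : Place F | ∃ v ∈ S, Over u v} = ⋃ v ∈ S, {u : Place F | Over u v} := by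
    ext u; simp
  rw [this]
  exact Set.Finite.biUnion S.finite_toSet fun v _ => over_finite v

/-- local proximity with the factor `max_j ‖b_j‖_w` -/
noncomputable def pr (b : Fin (n + 1) → k) (y : Fin (n + 1) → F) (w : Place F) : ℝ :=
  Real.log ((⨆ j, nrm w (y j)) * (⨆ j, nrm w (algebraMap k F (b j))) / nrm w (form b y))

theorem pr_inl (b : Fin (n + 1) → k) (y : Fin (n + 1) → F) (w : InfinitePlace F) :
    pr b y (Sum.inl w) = w.mult * prI b y w := by
  unfold pr prI
  rw [sup_inl, sup_inl w (fun j => algebraMap k F (b j))]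
  show Real.log (_ / w (form b y) ^ w.mult) = _
  rw [← mul_pow, ← div_pow, Real.log_pow]
  rfl

theorem pr_inr (b : Fin (n + 1) → k) (y : Fin (n + 1) → F) (w : FinitePlace F) :
    pr b y (Sum.inr w) = prF b y w := rfl

open Classical in
theorem split_sum (T : Finset (FinitePlace k)) (f : Place F → ℝ) :
    ∑ᶠ (w : Place F) (_ : ∃ v ∈ (Finset.univ.disjSum T : Finset (Place k)), Over w v), f w =
      (∑ w : InfinitePlace F, f (Sum.inl w)) +
        ∑ᶠ (w : FinitePlace F) (_ : ∃ v ∈ T, Above v w), f (Sum.inr w) := by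
  have hfin := above_set_finite (F := F) (Finset.univ.disjSum T : Finset (Place k))
  have e1 : {w : Place F | ∃ v ∈ (Finset.univ.disjSum T : Finset (Place k)), Over w v} =
      Set.range Sum.inl ∪ Sum.inr '' {w : FinitePlace F | ∃ v ∈ T, Above v w} := by
    ext w
    rcases w with w | w
    · constructor
      · intro _
        exact Or.inl ⟨w, rfl⟩
      · intro _
        exact ⟨Sum.inl (w.comap (algebraMap k F)), by simp, rfl⟩
    · constructor
      · rintro ⟨v, hv, hw⟩
        rcases v with v | v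
        · exact hw.elim
        · exact Or.inr ⟨w, ⟨v, Finset.inr_mem_disjSum.1 hv, (over_inr v w).1 hw⟩, rfl⟩
      · rintro (⟨w', hw'⟩ | ⟨w', ⟨v, hv, hw⟩, hw'⟩)
        · cases hw'
        · have := Sum.inr_injective hw'
          subst this
          exact ⟨Sum.inr v, Finset.inr_mem_disjSum.2 hv, (over_inr v w').2 hw⟩
  have e2 : ∑ᶠ (w : Place F) (_ : ∃ v ∈ (Finset.univ.disjSum T : Finset (Place k)), Over w v),
      f w = ∑ᶠ w ∈ Set.range (Sum.inl : InfinitePlace F → Place F) ∪
        Sum.inr '' {w : FinitePlace F | ∃ v ∈ T, Above v w}, f w := by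
    exact finsum_mem_congr (s := {w : Place F | ∃ v ∈ (Finset.univ.disjSum T :
      Finset (Place k)), Over w v}) e1 (fun _ _ => rfl)
  rw [e1] at hfin
  rw [e2, finsum_mem_union _ (hfin.subset Set.subset_union_left)
    (hfin.subset Set.subset_union_right), finsum_mem_range Sum.inl_injective,
    finsum_mem_image Sum.inr_injective.injOn, finsum_eq_sum_of_fintype]
  · rfl
  · rw [Set.disjoint_left]
    rintro _ ⟨w, rfl⟩ ⟨w', -, hw'⟩
    cases hw'

theorem height_eq {y : Fin (n + 1) → F} (hy : y ≠ 0) :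
    height y = (1 / (Module.finrank ℚ F : ℝ)) *
      ((∑ w : InfinitePlace F, (w.mult : ℝ) * Real.log (⨆ j, w (y j))) +
        ∑ᶠ w : FinitePlace F, Real.log (⨆ j, w (y j))) := by
  unfold height
  rw [ht_eq hy]
  ring

theorem height_nonneg {y : Fin (n + 1) → F} (hy : y ≠ 0) : 0 ≤ height y := by
  unfold height
  rw [ht_eq' hy]
  exact div_nonneg (Real.log_nonneg (Height.one_le_mulHeight y)) (Nat.cast_nonneg _)

/-- the proximity of S18577 -/
noncomputable def MM (T : Finset (FinitePlace k)) (b : Fin q → Fin (n + 1) → k)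
    (y : Fin (n + 1) → F) : ℝ :=
  (∑ w : InfinitePlace F, (w.mult : ℝ) * ∑ i, prI (b i) y w) +
    ∑ᶠ (w : FinitePlace F) (_ : ∃ v ∈ T, Above v w), ∑ i, prF (b i) y w

theorem finT (T : Finset (FinitePlace k)) : {w : FinitePlace F | ∃ v ∈ T, Above v w}.Finite := by
  have : {w : FinitePlace F | ∃ v ∈ T, Above v w} = ⋃ v ∈ T, {w : FinitePlace F | Above v w} := by
    ext u; simp
  rw [this]
  exact Set.Finite.biUnion T.finite_toSet fun v _ =>
    ((Pool.Agent.Helper7.Ru.plAbove k F).1 v).1

/-- one hyperplane -/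
noncomputable def M1p (T : Finset (FinitePlace k)) (b : Fin (n + 1) → k)
    (y : Fin (n + 1) → F) : ℝ :=
  (∑ w : InfinitePlace F, (w.mult : ℝ) * prI b y w) +
    ∑ᶠ (w : FinitePlace F) (_ : ∃ v ∈ T, Above v w), prF b y w

theorem MM_eq (T : Finset (FinitePlace k)) (b : Fin q → Fin (n + 1) → k)
    (y : Fin (n + 1) → F) : MM T b y = ∑ i, M1p T (b i) y := by
  unfold MM M1p
  rw [Finset.sum_add_distrib]
  congr 1
  · rw [Finset.sum_comm]
    exact Finset.sum_congr rfl fun w _ => Finset.mul_sum _ _ _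
  · have h1 := finsum_mem_eq_finite_toFinset_sum
      (fun w : FinitePlace F => ∑ i, prF (b i) y w) (finT (F := F) T)
    have h2 : ∀ i, ∑ᶠ (w : FinitePlace F) (_ : ∃ v ∈ T, Above v w), prF (b i) y w =
        ∑ w ∈ (finT (F := F) T).toFinset, prF (b i) y w := fun i =>
      finsum_mem_eq_finite_toFinset_sum (fun w : FinitePlace F => prF (b i) y w) (finT (F := F) T)
    simp_rw [h2]
    rw [Finset.sum_comm]
    exact h1

/-- comparison of the two proximity functions -/
theorem prox_le (S : Finset (Place k)) (b : Fin q → Fin (n + 1) → k) (hb0 : ∀ i, b i ≠ 0)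
    {y : Fin (n + 1) → F} (hy : y ≠ 0) (hb : ∀ i, form (b i) y ≠ 0) :
    prox S b y ≤ MM S.toRight b y / (Module.finrank ℚ F : ℝ) +
      (q * Real.log (n + 1) -
        (∑ i, ∑ᶠ v ∈ (S : Set (Place k)), Real.log (⨆ j, nrm v (b i j))) /
          (Module.finrank ℚ k : ℝ)) := by
  classical
  have hF : (0 : ℝ) < (Module.finrank ℚ F : ℝ) := by
    exact_mod_cast (Module.finrank_pos (R := ℚ) (M := F))
  have hk : (0 : ℝ) < (Module.finrank ℚ k : ℝ) := by
    exact_mod_cast (Module.finrank_pos (R := ℚ) (M := k))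
  have hkF : (0 : ℝ) < (Module.finrank k F : ℝ) := by
    exact_mod_cast (Module.finrank_pos (R := k) (M := F))
  set A : Set (Place F) := {w | ∃ v ∈ S, Over w v} with hA
  have hAf : A.Finite := above_set_finite S
  set S' : Finset (Place k) := Finset.univ.disjSum S.toRight with hS'
  set A' : Set (Place F) := {w | ∃ v ∈ S', Over w v} with hA'
  have hAf' : A'.Finite := above_set_finite S'
  have hSS : S ⊆ S' := by
    intro v hv
    rcases v with v | v
    · simp [hS']
    · simp [hS', hv]
  have hAA : A ⊆ A' := fun w ⟨v, hv, hw⟩ => ⟨v, hSS hv, hw⟩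
  let g : Place F → ℝ := fun w => match w with
    | .inl w => (w.mult : ℝ) * Real.log (n + 1)
    | .inr _ => 0
  have hlog : 0 ≤ Real.log ((n : ℝ) + 1) := Real.log_nonneg (by linarith [Nat.cast_nonneg (α := ℝ) n])
  have hg0 : ∀ w, 0 ≤ g w := by
    rintro (w | w)
    · exact mul_nonneg (Nat.cast_nonneg _) hlog
    · exact le_refl _
  have hpg : ∀ i w, 0 ≤ pr (b i) y w + g w := by
    rintro i (w | w)
    · rw [pr_inl]
      have h1 := (Pool.Agent.Helper34.Ru.prLow k F n (b i) y (hb i)).1 w
      show 0 ≤ (w.mult : ℝ) * prI (b i) y w + (w.mult : ℝ) * Real.log (n + 1)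
      rw [← mul_add]
      exact mul_nonneg (Nat.cast_nonneg _) (by linarith)
    · rw [pr_inr]
      have h1 := (Pool.Agent.Helper34.Ru.prLow k F n (b i) y (hb i)).2 w
      show 0 ≤ prF (b i) y w + 0
      linarith
  have key : ∀ i, ∑ᶠ w ∈ A, Real.log ((⨆ j, nrm w (y j)) / nrm w (form (b i) y)) ≤
      M1p S.toRight (b i) y + (Module.finrank ℚ F : ℝ) * Real.log (n + 1) -
        (Module.finrank k F : ℝ) * ∑ᶠ v ∈ (S : Set (Place k)), Real.log (⨆ j, nrm v (b i j)) := by
    intro i
    have e1 : ∀ w : Place F, Real.log ((⨆ j, nrm w (y j)) / nrm w (form (b i) y)) =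
        pr (b i) y w - Real.log (⨆ j, nrm w (algebraMap k F (b i j))) := by
      intro w
      have hb' : (fun j => algebraMap k F (b i j)) ≠ 0 := by
        obtain ⟨j, hj⟩ := Function.ne_iff.1 (hb0 i)
        exact Function.ne_iff.2 ⟨j, (map_ne_zero _).2 hj⟩
      have p1 := sup_pos w hy
      have p2 : 0 < ⨆ j, nrm w (algebraMap k F (b i j)) := sup_pos w hb'
      have p3 := nrm_pos w (hb i)
      unfold pr
      rw [Real.log_div p1.ne' p3.ne', Real.log_div (mul_pos p1 p2).ne' p3.ne',
        Real.log_mul p1.ne' p2.ne']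
      ring
    have e2 : ∑ᶠ w ∈ A, Real.log ((⨆ j, nrm w (y j)) / nrm w (form (b i) y)) =
        ∑ᶠ w ∈ A, pr (b i) y w -
          ∑ᶠ w ∈ A, Real.log (⨆ j, nrm w (algebraMap k F (b i j))) := by
      rw [← finsum_mem_sub_distrib _ _ hAf]
      exact finsum_mem_congr rfl fun w _ => e1 w
    have e3 : ∑ᶠ w ∈ A, Real.log (⨆ j, nrm w (algebraMap k F (b i j))) =
        (Module.finrank k F : ℝ) *
          ∑ᶠ v ∈ (S : Set (Place k)), Real.log (⨆ j, nrm v (b i j)) := by
      have k1 : ∀ u : Place k, ∃ z : k, z ≠ 0 ∧ (⨆ j, nrm u (b i j)) = nrm u z ∧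
          ∀ w : Place F, Over w u →
            (⨆ j, nrm w (algebraMap k F (b i j))) = nrm w (algebraMap k F z) := by
        intro u
        obtain ⟨j, hj⟩ := sup_att u (b i)
        refine ⟨b i j, ?_, hj.symm, fun w hw =>
          sup_over (b i) j (fun j' => hj ▸ sup_ge u (b i) j') hw⟩
        intro h0
        have := sup_pos u (hb0 i)
        rw [← hj, h0, nrm_zero] at this
        exact lt_irrefl _ this
      refine fib (k := k) (L := F)
        (fun w => Real.log (⨆ j, nrm w (algebraMap k F (b i j))))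
        (fun u => Real.log (⨆ j, nrm u (b i j))) (Module.finrank k F : ℝ) ?_ ?_ (S : Set (Place k))
        (S.finite_toSet.subset Set.inter_subset_left)
      · intro u
        obtain ⟨z, hz, h1, h2⟩ := k1 u
        show _ = (Module.finrank k F : ℝ) * Real.log (⨆ j, nrm u (b i j))
        rw [h1, ← sum_const u z hz]
        exact finsum_mem_congr (s := {w : Place F | Over w u}) rfl (fun w h => by rw [h2 w h])
      · intro u w h h0
        obtain ⟨z, hz, h1, h2⟩ := k1 u
        change Real.log (⨆ j, nrm u (b i j)) = 0 at h0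
        rw [h1] at h0
        obtain ⟨e, he, hc⟩ := over_mono h
        rw [h2 w h, hc, Real.log_rpow (nrm_pos u hz), h0, mul_zero]
    have e4 : ∑ᶠ w ∈ A, pr (b i) y w ≤
        M1p S.toRight (b i) y + (Module.finrank ℚ F : ℝ) * Real.log (n + 1) := by
      have f1 : ∑ᶠ w ∈ A, pr (b i) y w ≤ ∑ᶠ w ∈ A', (pr (b i) y w + g w) := by
        rw [finsum_mem_eq_finite_toFinset_sum _ hAf, finsum_mem_eq_finite_toFinset_sum _ hAf']
        calc ∑ w ∈ hAf.toFinset, pr (b i) y w ≤ ∑ w ∈ hAf.toFinset, (pr (b i) y w + g w) :=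
              Finset.sum_le_sum fun w _ => by linarith [hg0 w]
          _ ≤ _ := Finset.sum_le_sum_of_subset_of_nonneg
              (Set.Finite.toFinset_subset_toFinset.2 hAA) (fun w _ _ => hpg i w)
      have f2 : ∑ᶠ w ∈ A', (pr (b i) y w + g w) =
          M1p S.toRight (b i) y + (Module.finrank ℚ F : ℝ) * Real.log (n + 1) := by
        rw [finsum_mem_add_distrib hAf']
        congr 1
        · refine (split_sum S.toRight (pr (b i) y)).trans ?_
          unfold M1p
          congr 1
          exact Finset.sum_congr rfl fun w _ => pr_inl _ _ _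
        · refine (split_sum S.toRight g).trans ?_
          have g1 : ∑ᶠ (w : FinitePlace F) (_ : ∃ v ∈ S.toRight, Above v w), g (Sum.inr w) = 0 := by
            simp [g]
          rw [g1, add_zero]
          show ∑ w : InfinitePlace F, (w.mult : ℝ) * Real.log (n + 1) = _
          rw [← Finset.sum_mul, ← InfinitePlace.sum_mult_eq (K := F)]
          push_cast
          rfl
      exact f1.trans f2.le
    rw [e2, e3]
    linarith
  have hsum : ∑ i, ∑ᶠ (w : Place F) (_ : ∃ v ∈ S, Over w v),
      Real.log ((⨆ j, nrm w (y j)) / nrm w (form (b i) y)) ≤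
      MM S.toRight b y + q * ((Module.finrank ℚ F : ℝ) * Real.log (n + 1)) -
        (Module.finrank k F : ℝ) *
          ∑ i, ∑ᶠ v ∈ (S : Set (Place k)), Real.log (⨆ j, nrm v (b i j)) := by
    refine (Finset.sum_le_sum fun i _ => key i).trans ?_
    rw [Finset.sum_sub_distrib, Finset.sum_add_distrib, ← MM_eq, Finset.mul_sum]
    simp
  unfold prox
  rw [div_le_iff₀ hF]
  refine hsum.trans (le_of_eq ?_)
  have h1 : (Module.finrank ℚ F : ℝ) = (Module.finrank ℚ k : ℝ) * (Module.finrank k F : ℝ) := by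
    rw [← Module.finrank_mul_finrank ℚ k F]; push_cast; rfl
  rw [add_mul, sub_mul, div_mul_cancel₀ _ hF.ne']
  have h2 : (∑ i, ∑ᶠ v ∈ (S : Set (Place k)), Real.log (⨆ j, nrm v (b i j))) /
      (Module.finrank ℚ k : ℝ) * (Module.finrank ℚ F : ℝ) = (Module.finrank k F : ℝ) *
        ∑ i, ∑ᶠ v ∈ (S : Set (Place k)), Real.log (⨆ j, nrm v (b i j)) := by
    rw [h1]
    field_simp
  rw [h2]
  ring

end pr

end Pool.Agent.Helper92.Ru.Own
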