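import Mathlib

/-!
# Heights, proximity functions and fields of definition, as in the problem file MP_d1d051_nt

`k` is a number field, `L` a number field containing `k`, and a point of projective `n`-space over `L`
is given by homogeneous coordinates `x : Fin (n + 1) → L`, `x ≠ 0`.
-/

set_option autoImplicit false

open NumberField

namespace Pool.Agent.Helper92.Ru.Own

/-- the places of a number field: the infinite ones and the finite ones -/
abbrev Place (k : Type) [Field k] [NumberField k] : Type := InfinitePlace k ⊕ FinitePlace k

/-- the value at `x` of the linear form `b_0 X_0 + ... + b_n X_n` with coefficients in `k` -/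
noncomputable def form {k : Type} [Field k] {L : Type} [Field L] [Algebra k L] {n : ℕ}
    (b : Fin (n + 1) → k) (x : Fin (n + 1) → L) : L :=
  ∑ j, algebraMap k L (b j) * x j

/-- `k(P)`, the field of definition of `P = [x_0 : ... : x_n]`: the subfield of `L` generated over
`k` by the quotients `x_i / x_j`, `x_j ≠ 0` -/
noncomputable def fieldOfDef (k : Type) [Field k] {L : Type} [Field L] [Algebra k L] {n : ℕ}
    (x : Fin (n + 1) → L) : IntermediateField k L :=
  IntermediateField.adjoin k {z | ∃ i j, x j ≠ 0 ∧ z = x i / x j}

/-- general position: any `n + 1` of the hyperplanes `b i = 0` have empty intersection, that is,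
no common point over the algebraic closure of `k` -/
def GeneralPosition {k : Type} [Field k] {n q : ℕ} (b : Fin q → Fin (n + 1) → k) : Prop :=
  ∀ s : Finset (Fin q), s.card = n + 1 → ∀ x : Fin (n + 1) → AlgebraicClosure k,
    (∀ i ∈ s, form (b i) x = 0) → x = 0

section

variable {k : Type} [Field k] [NumberField k] {L : Type} [Field L] [NumberField L] [Algebra k L]
  {n q : ℕ}

/-- the normalised absolute value `‖x‖_w`: `|x|` at a real place, `|x| ^ 2` at a complex place,
`N(𝔭) ^ (- ord_𝔭 x)` at the place of a prime `𝔭` (this is Mathlib's normalisation of `FinitePlace`),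
so that the product formula holds -/
noncomputable def nrm (w : Place L) (x : L) : ℝ :=
  match w with
  | .inl w => w x ^ w.mult
  | .inr w => w x

/-- the place `w` of `L` lies above the place `v` of `k`: for infinite places, `v` is the
restriction of `w`; for finite places, the prime of `w` lies over the prime of `v` -/
def Over (w : Place L) (v : Place k) : Prop :=
  match w, v with
  | .inl w, .inl v => w.comap (algebraMap k L) = v
  | .inr w, .inr v => w.maximalIdeal.asIdeal.LiesOver v.maximalIdeal.asIdeal
  | _, _ => False

/-- `h(P) = (1 / [L : ℚ]) Σ_w log max_j ‖x_j‖_w`, the sum over all places of `L` -/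
noncomputable def height (x : Fin (n + 1) → L) : ℝ :=
  (∑ᶠ w : Place L, Real.log (⨆ j, nrm w (x j))) / (Module.finrank ℚ L : ℝ)

/-- `m_{D,S}(P) = (1 / [L : ℚ]) Σ_i Σ_{w ∣ v, v ∈ S} log (max_j ‖x_j‖_w / ‖ℓ_i(x)‖_w)`, where `ℓ_i`
is the linear form with coefficients `b i` -/
noncomputable def prox (S : Finset (Place k)) (b : Fin q → Fin (n + 1) → k)
    (x : Fin (n + 1) → L) : ℝ :=
  (∑ i, ∑ᶠ (w : Place L) (_ : ∃ v ∈ S, Over w v),
    Real.log ((⨆ j, nrm w (x j)) / nrm w (form (b i) x))) / (Module.finrank ℚ L : ℝ)

end

end Pool.Agent.Helper92.Ru.Own
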