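import Pool.Agent.Helper92.Ru.OwnD

/-! General position, fields of definition, and the final statement -/

set_option autoImplicit false

open NumberField IsDedekindDomain Function

namespace Pool.Agent.Helper92.Ru.Own

open Pool.Agent.Helper92.Ru

section gp

variable {k : Type} [Field k] {n q : ℕ}

theorem gp_full {b : Fin q → Fin (n + 1) → k} (h : GeneralPosition b) (s : Finset (Fin q))
    (hs : s.card = n + 1) : LinearIndependent k (fun i : s => b i) := by
  classical
  let e : Fin (n + 1) ≃ s := (finCongr hs.symm).trans s.equivFin.symm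
  let M : Matrix (Fin (n + 1)) (Fin (n + 1)) k := Matrix.of fun i j => b (e i) j
  have hdet : M.det ≠ 0 := by
    intro h0
    obtain ⟨v, hv, hMv⟩ := Matrix.exists_mulVec_eq_zero_iff.2 h0
    have h1 := h s hs (fun j => algebraMap k (AlgebraicClosure k) (v j)) ?_
    · apply hv
      funext j
      have := congrFun h1 j
      exact (map_eq_zero _).1 this
    · intro i hi
      have h2 := congrFun hMv (e.symm ⟨i, hi⟩)
      have h3 : ∑ j, b i j * v j = 0 := by
        have h4 : (M.mulVec v) (e.symm ⟨i, hi⟩) = ∑ j, b i j * v j := by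
          simp [Matrix.mulVec, dotProduct, M]
        rw [← h4, h2]
        rfl
      show ∑ j, algebraMap k (AlgebraicClosure k) (b i j) * algebraMap k _ (v j) = 0
      rw [show (∑ j, algebraMap k (AlgebraicClosure k) (b i j) * algebraMap k _ (v j)) =
        algebraMap k (AlgebraicClosure k) (∑ j, b i j * v j) by simp [map_sum], h3, map_zero]
  have h5 : LinearIndependent k (fun i => M i) :=
    Matrix.linearIndependent_rows_of_det_ne_zero hdet
  have h6 : LinearIndependent k ((fun i : s => b i) ∘ e) := h5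
  exact (linearIndependent_equiv e).1 h6

theorem gp_le {b : Fin q → Fin (n + 1) → k} (h : GeneralPosition b) (hq : n + 1 ≤ q) :
    ∀ s : Finset (Fin q), s.card ≤ n + 1 → LinearIndependent k (fun i : s => b i) := by
  classical
  intro s hs
  obtain ⟨t, hst, ht⟩ := Finset.exists_superset_card_eq hs (by simpa using hq)
  have h1 := gp_full h t ht
  have h2 := h1.comp (fun i : s => (⟨i.1, hst i.2⟩ : t))
    (fun i j hij => Subtype.ext (congrArg (fun z : t => z.1) hij))
  exact h2

theorem gp_one {b : Fin (n + 1) → k} (h : b ≠ 0) : GP (fun _ : Fin 1 => b) := by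
  intro s _
  rw [linearIndependent_iff']
  intro t g hg i hi
  have hi1 : ∀ j : s, j = i := fun j => Subtype.ext (Subsingleton.elim _ _)
  have ht : t = {i} := by
    ext j
    rw [Finset.mem_singleton]
    exact ⟨fun _ => hi1 j, fun hj => hj ▸ hi⟩
  rw [ht, Finset.sum_singleton] at hg
  exact (smul_eq_zero.1 hg).resolve_right h

end gp

section main

theorem one_le {k : Type} [Field k] [NumberField k] (T : Finset (FinitePlace k)) {n : ℕ}
    (hn : 1 ≤ n) (b : Fin (n + 1) → k) (hb : b ≠ 0) (δ : ℕ) :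
    ∃ C : ℝ, 0 ≤ C ∧ ∀ (F : Type) [Field F] [NumberField F] [Algebra k F],
      Module.finrank k F ≤ δ → ∀ y : Fin (n + 1) → F, y ≠ 0 → form b y ≠ 0 →
      M1p T b y ≤ (Module.finrank ℚ F : ℝ) * height y + C := by
  have hex : ∀ d : ℕ, ∃ C : ℝ, 1 ≤ d → ∀ (F : Type) [Field F] [NumberField F] [Algebra k F],
      Module.finrank k F = d → ∀ y : Fin (n + 1) → F, y ≠ 0 → form b y ≠ 0 →
      M1p T b y ≤ (Module.finrank ℚ F : ℝ) * height y + C := by
    intro d
    by_cases hd : 1 ≤ d
    · obtain ⟨C, Cf, hOK⟩ := ptAll' plNormTry k T n 1 d (fun _ => b) hn hd (gp_one hb)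
      refine ⟨C, fun _ F _ _ _ hF y hy hl => ?_⟩
      obtain ⟨σ⟩ := exists_sigma k F
      rw [hF] at σ
      have h1 := (hOK F hF σ y hy (fun _ => hl)).lam_sum 0
      obtain ⟨h2, h3, -⟩ := ptSums' plNormTry k T n 1 d (fun _ => b) F σ y hy
      rw [h3] at h1
      have h4 : (ptOf T (fun _ : Fin 1 => b) σ y).tot = M1p T b y := by
        rw [h2]
        unfold M1p
        simp
      have h5 : (ptOf T (fun _ : Fin 1 => b) σ y).tot =
          ∑ v, (ptOf T (fun _ : Fin 1 => b) σ y).lam v 0 := by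
        unfold Pt.tot
        simp
      rw [← h5, h4] at h1
      rw [height_eq hy]
      have hD : (Module.finrank ℚ F : ℝ) ≠ 0 := by
        exact_mod_cast (Module.finrank_pos (R := ℚ) (M := F)).ne'
      rw [← mul_assoc, mul_one_div_cancel hD, one_mul]
      exact h1
    · exact ⟨0, fun h => absurd h hd⟩
  choose C hC using hex
  refine ⟨∑ d ∈ Finset.range (δ + 1), |C d|, Finset.sum_nonneg fun d _ => abs_nonneg _, ?_⟩
  intro F _ _ _ hF y hy hl
  have h1 := hC (Module.finrank k F) (finrank_pos_nf k F) F rfl y hy hl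
  have h2 : |C (Module.finrank k F)| ≤ ∑ d ∈ Finset.range (δ + 1), |C d| := by
    apply Finset.single_le_sum (f := fun d => |C d|) (fun d _ => abs_nonneg _)
    simp only [Finset.mem_range]
    omega
  linarith [le_abs_self (C (Module.finrank k F))]

/-- the inequality with the proximity of S18577 under the hypotheses of the problem file -/
theorem field_level {k : Type} [Field k] [NumberField k] (T : Finset (FinitePlace k)) {n q : ℕ}
    (hn : 1 ≤ n) (b : Fin q → Fin (n + 1) → k) (hb : ∀ i, b i ≠ 0) (hGP : GeneralPosition b)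
    (δ : ℕ) (hδ : 1 ≤ δ) (ε : ℝ) (hε : 0 < ε) :
    ∃ C : ℝ, ∀ (F : Type) [Field F] [NumberField F] [Algebra k F],
      Module.finrank k F ≤ δ → ∀ y : Fin (n + 1) → F, y ≠ 0 → (∀ i, form (b i) y ≠ 0) →
      MM T b y / (Module.finrank ℚ F : ℝ) < (2 * (δ : ℝ) * (n : ℝ) + ε) * height y + C := by
  by_cases hq : n + 1 ≤ q
  · obtain ⟨C, hC⟩ := s18577 k T n q b (gp_le hGP hq) δ hδ ε hε
    refine ⟨C, fun F _ _ _ hF y hy hl => ?_⟩
    have h1 := hC F hF y hy hl
    rw [height_eq hy]
    refine lt_of_eq_of_lt ?_ h1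
    unfold MM prI prF
    rw [div_eq_mul_inv, mul_comm, one_div]
    rfl
  · have hex : ∀ i, ∃ C : ℝ, 0 ≤ C ∧ ∀ (F : Type) [Field F] [NumberField F] [Algebra k F],
      Module.finrank k F ≤ δ → ∀ y : Fin (n + 1) → F, y ≠ 0 → form (b i) y ≠ 0 →
      M1p T (b i) y ≤ (Module.finrank ℚ F : ℝ) * height y + C := fun i =>
        one_le T hn (b i) (hb i) δ
    choose C hC0 hC using hex
    refine ⟨(∑ i, C i) + 1, fun F _ _ _ hF y hy hl => ?_⟩
    have hD1 : (1 : ℝ) ≤ (Module.finrank ℚ F : ℝ) := by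
      have : 1 ≤ Module.finrank ℚ F := Module.finrank_pos
      exact_mod_cast this
    have hD : (0 : ℝ) < (Module.finrank ℚ F : ℝ) := by linarith
    have h1 : MM T b y ≤ q * ((Module.finrank ℚ F : ℝ) * height y) + ∑ i, C i := by
      rw [MM_eq]
      refine (Finset.sum_le_sum fun i _ => hC i F hF y hy (hl i)).trans ?_
      rw [Finset.sum_add_distrib]
      simp
    have hh := height_nonneg hy
    have h2 : MM T b y / (Module.finrank ℚ F : ℝ) ≤ q * height y + ∑ i, C i := by
      rw [div_le_iff₀ hD]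
      have hCs : 0 ≤ ∑ i, C i := Finset.sum_nonneg fun i _ => hC0 i
      nlinarith
    have hqn : (q : ℝ) ≤ n := by
      have : q ≤ n := by omega
      exact_mod_cast this
    have hδ1 : (1 : ℝ) ≤ δ := by exact_mod_cast hδ
    have hn0 : (0 : ℝ) ≤ n := Nat.cast_nonneg n
    have h3 : (q : ℝ) ≤ 2 * (δ : ℝ) * (n : ℝ) + ε := by nlinarith
    have h4 := mul_le_mul_of_nonneg_right h3 hh
    linarith

/-- **The statement of the problem file.** -/
theorem main {k : Type} [Field k] [NumberField k] (S : Finset (Place k)) {n q : ℕ}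
    (hn : 1 ≤ n) (b : Fin q → Fin (n + 1) → k) (hb : ∀ i, b i ≠ 0) (hGP : GeneralPosition b)
    (δ : ℕ) (hδ : 1 ≤ δ) (ε : ℝ) (hε : 0 < ε) :
    ∃ C : ℝ, ∀ (L : Type) [Field L] [NumberField L] [Algebra k L] (x : Fin (n + 1) → L),
      x ≠ 0 → (∀ i, form (b i) x ≠ 0) → Module.finrank k (fieldOfDef k x) ≤ δ →
      prox S b x < (2 * (δ : ℝ) * (n : ℝ) + ε) * height x + C := by
  obtain ⟨C, hC⟩ := field_level S.toRight hn b hb hGP δ hδ ε hε
  refine ⟨C + (q * Real.log (n + 1) -
        (∑ i, ∑ᶠ v ∈ (S : Set (Place k)), Real.log (⨆ j, nrm v (b i j))) /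
          (Module.finrank ℚ k : ℝ)), ?_⟩
  intro L _ _ _ x hx hl hd
  obtain ⟨j0, hj0⟩ := Function.ne_iff.1 hx
  have hj0' : x j0 ≠ 0 := hj0
  let y : Fin (n + 1) → fieldOfDef k x := fun j =>
    ⟨x j / x j0, IntermediateField.subset_adjoin k _ ⟨j, j0, hj0', rfl⟩⟩
  have hyx : x = fun j => x j0 * algebraMap (fieldOfDef k x) L (y j) := by
    funext j
    show x j = x j0 * (x j / x j0)
    rw [mul_div_cancel₀ _ hj0']
  have hy : y ≠ 0 := by
    intro h0
    apply hx
    rw [hyx, h0]
    funext j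
    simp
  have hly : ∀ i, form (b i) y ≠ 0 := by
    intro i h0
    apply hl i
    rw [hyx, form_ext, h0, map_zero, mul_zero]
  have h1 := hC (fieldOfDef k x) hd y hy hly
  have h2 := prox_le S b hb hy hly
  rw [hyx, prox_ext S b hy hly hj0', height_ext hy hj0']
  linarith

end main

end Pool.Agent.Helper92.Ru.Own
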